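import Pool.Agent.V8H84.WM.Local

/-!
# Monodromy operators without two Jordan blocks of the same size
-/

set_option autoImplicit false
set_option linter.unusedSectionVars false

namespace Pool.Agent.V8H84.WM

open Module Pool.Agent.V8H91.MW

section general

variable {Ω : Type*} [Field Ω] [IsAlgClosed Ω] {V : Type*} [AddCommGroup V] [Module Ω V]
  [FiniteDimensional Ω V]
  {f N : Module.End Ω V} {c d : Ω} {S : ℤ → Set Ω} {m : ℕ} {B : V →ₗ[Ω] V →ₗ[Ω] Ω}

/-- no two Jordan blocks have the same size -/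
def Blk (N : Module.End Ω V) : Prop :=
  ∀ k, 1 ≤ k → 2 * finrank Ω (LinearMap.ker (N ^ k)) ≤
    finrank Ω (LinearMap.ker (N ^ (k - 1))) + finrank Ω (LinearMap.ker (N ^ (k + 1))) + 1

theorem Blk.le (hb : Blk N) {k : ℕ} (hk : 1 ≤ k) :
    finrank Ω (LinearMap.ker (N ^ k)) ≤ finrank Ω (KK N k) + 1 := by
  have h1 := finrank_KK N hk
  have h2 := hb k hk
  omega

/-- At most one block of each size implies the monodromy-weight property. -/
theorem lef_of_block (h : Wt f N c S m) (hd : Dual f N d S m B) (hb : Blk N) : Lef f N S m := by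
  intro j hj μ hμ x hx hfx hN
  have h1 : x ∈ sp f (S (m + j)) := gen_le_sp hμ (mem_gen_of_eig hfx)
  obtain ⟨w', k', x', hk', hw2, hlt, hx', hN', hK'⟩ :=
    exists_bad h (2 * (m : ℤ) - (m + j)).toNat (m + j) (Int.self_le_toNat _) j x hx h1 hN
      (by omega)
  obtain ⟨y, hy, hyN, hyK⟩ := exists_dual_bad h hd hk' hx' hN' hK'
  have h2 := two_le h hk' (w := w') (w' := 2 * m - w' + 2 * (k' - 1)) (by omega) hx' hN' hK'
    hy hyN hyK
  have h3 := hb.le hk'
  omega

theorem KK_sp (h : Wt f N c S m) (hL : Lef f N S m) {j : ℕ} {z : V} (hz : z ∈ KK N (j + 1))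
    (hz' : z ∈ sp f (S (m + j))) : z = 0 := by
  obtain ⟨a, b, ha, hb, hab⟩ := mem_KK_iff.1 hz
  obtain ⟨a₁, ha₁, ha₁', a₂, ha₂, ha₂', rfl⟩ := stable_decomp (f := f)
    (U := LinearMap.ker (N ^ (j + 1 - 1))) (fun y hy => h.ker_stable _ hy) (S (m + j)) ha
  obtain ⟨b₁, hb₁, hb₁', b₂, hb₂, hb₂', rfl⟩ := stable_decomp (f := f)
    (U := LinearMap.ker (N ^ (j + 1 + 1))) (fun y hy => h.ker_stable _ hy) (S (m + j + 2)) hb
  have e1 : N b₁ ∈ sp f (S (m + j)) := by
    have := h.N_sp hb₁'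
    rwa [add_sub_cancel_right] at this
  have e2 : N b₂ ∈ sp f (S (m + j))ᶜ := by
    have := h.N_sp_compl hb₂'
    rwa [add_sub_cancel_right] at this
  have e3 : z + 0 = (a₁ + N b₁) + (a₂ + N b₂) := by
    rw [add_zero, hab, map_add]; abel
  have e4 := (sp_unique hz' (Submodule.add_mem _ ha₁' e1) (Submodule.zero_mem _)
    (Submodule.add_mem _ ha₂' e2) e3).1
  have e5 : a₁ = 0 := hL.inj h j ha₁' ha₁
  have e6 : b₁ = 0 := by
    refine hL.inj h (j + 2) ?_ hb₁
    have h1 : (m : ℤ) + ((j + 2 : ℕ) : ℤ) = m + j + 2 := by push_cast; ring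
    rwa [h1]
  rw [e4, e5, e6, map_zero, add_zero]

/-- No isotropic vector in the multiplicity space of the blocks of a given size. -/
theorem no_iso (h : Wt f N c S m) (hd : Dual f N d S m B) (hL : Lef f N S m) (hb : Blk N)
    {j : ℕ} {x : V} (hx0 : x ≠ 0) (hx : x ∈ sp f (S (m + j))) (hN : (N ^ (j + 1)) x = 0)
    (hB : B ((N ^ j) x) x = 0) : False := by
  have hxK : x ∉ KK N (j + 1) := fun hK => hx0 (KK_sp h hL hK hx)
  have hker : KK N (j + 1) ⊔ Submodule.span Ω {x} = LinearMap.ker (N ^ (j + 1)) := by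
    apply Submodule.eq_of_le_of_finrank_le
    · refine sup_le (KK_le (by omega)) ?_
      rw [Submodule.span_le, Set.singleton_subset_iff]
      exact hN
    · have h1 := hb.le (k := j + 1) (by omega)
      have h2 := Submodule.finrank_sup_add_finrank_inf_eq (KK N (j + 1)) (Submodule.span Ω {x})
      have h3 : KK N (j + 1) ⊓ Submodule.span Ω {x} = ⊥ := by
        rw [eq_bot_iff]
        rintro z ⟨hz, hz'⟩
        obtain ⟨a, rfl⟩ := Submodule.mem_span_singleton.1 hz'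
        by_cases ha : a = 0
        · rw [ha, zero_smul]
          exact Submodule.zero_mem _
        · exact absurd ((Submodule.smul_mem_iff _ ha).1 hz) hxK
      rw [h3, finrank_bot, finrank_span_singleton hx0, add_zero] at h2
      omega
  have hzero : (N ^ j) x = 0 := by
    have h1 : (N ^ j) x ∈ sp f (S (m - j)) := by
      have h2 := h.pow_sp j hx
      have h3 : (m : ℤ) + j - 2 * (j : ℤ) = m - j := by ring
      rwa [h3] at h2
    refine hd.nondeg h1 fun y hy => ?_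
    have h4 : 2 * (m : ℤ) - (m - j) = m + j := by ring
    rw [h4] at hy
    -- decompose `y`
    have h5 : (N ^ (j + 1)) y ∈ sp f (S (m - ((j + 2 : ℕ) : ℤ))) := by
      have h6 := h.pow_sp (j + 1) hy
      have h7 : (m : ℤ) + j - 2 * ((j + 1 : ℕ) : ℤ) = m - ((j + 2 : ℕ) : ℤ) := by push_cast; ring
      rwa [h7] at h6
    obtain ⟨y', hy', hyy⟩ := hL.surj h hd (j + 2) h5
    have h8 : y - N y' ∈ LinearMap.ker (N ^ (j + 1)) := by
      rw [LinearMap.mem_ker, map_sub, ← hyy, ← Module.End.mul_apply (N ^ (j + 1)) N, ← pow_succ,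
        sub_self]
    rw [← hker] at h8
    obtain ⟨κ, hκ, z, hz, hκz⟩ := Submodule.mem_sup.1 h8
    obtain ⟨a, rfl⟩ := Submodule.mem_span_singleton.1 hz
    have h9 : N y' ∈ sp f (S (m + j)) := by
      have h6 := h.N_sp hy'
      have h7 : (m : ℤ) + ((j + 2 : ℕ) : ℤ) - 2 = m + j := by push_cast; ring
      rwa [h7] at h6
    have h10 : κ = y - N y' - a • x := by rw [← hκz]; abel
    have h11 : κ = 0 := KK_sp h hL hκ (by
      rw [h10]
      exact Submodule.sub_mem _ (Submodule.sub_mem _ hy h9) (Submodule.smul_mem _ _ hx))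
    have h12 : y = N y' + a • x := by
      rw [h11, zero_add] at hκz
      rw [hκz]; abel
    have h13 := hd.BN ((N ^ j) x) y'
    rw [← Module.End.mul_apply N, ← pow_succ', hN, map_zero, LinearMap.zero_apply, zero_add] at h13
    rw [h12, map_add, h13, map_smul, hB, smul_zero, add_zero]
  exact hx0 (hL.inj h j hx hzero)

end general

section complex

variable {V : Type*} [AddCommGroup V] [Module ℂ V] [FiniteDimensional ℂ V]
  {V' : Type*} [AddCommGroup V'] [Module ℂ V'] [FiniteDimensional ℂ V']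
  {f N : Module.End ℂ V} {f' N' : Module.End ℂ V'} {q : ℕ} {w : ℤ}

theorem dual_inst (hq : 1 < q) (m : ℕ) (B : V →ₗ[ℂ] V →ₗ[ℂ] ℂ)
    (Bf : ∀ x y, B (f x) (f y) = (q : ℂ) ^ w * B x y) (BN : ∀ x y, B (N x) y + B x (N y) = 0)
    (Bnd : ∀ x, (∀ y, B x y = 0) → x = 0) : Dual f N ((q : ℂ) ^ w) (Sq q w m) m B := by
  have hq0 : (q : ℝ) ≠ 0 := by positivity
  refine ⟨?_, ?_, Bf, BN, Bnd⟩
  · intro u hu
    have h1 : ‖(0 : ℂ)‖ ^ 2 = (q : ℝ) ^ (u - m + w) := hu
    rw [norm_zero, zero_pow two_ne_zero] at h1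
    exact zpow_ne_zero _ hq0 h1.symm
  · intro μ u hu
    have h1 : ‖μ‖ ^ 2 = (q : ℝ) ^ (u - m + w) := hu
    show ‖(q : ℂ) ^ w * μ⁻¹‖ ^ 2 = (q : ℝ) ^ (2 * m - u - m + w)
    rw [norm_mul, mul_pow, norm_inv, inv_pow, h1, norm_zpow, Complex.norm_natCast,
      ← zpow_natCast, ← zpow_mul, ← zpow_neg, ← zpow_add₀ hq0]
    congr 1
    push_cast
    ring

/-- subobjects inherit the hypotheses -/
theorem Loc.sub (h : Loc f N q) (ι : V' →ₗ[ℂ] V) (hι : Function.Injective ι)
    (hf : ∀ x, ι (f' x) = f (ι x)) (hN : ∀ x, ι (N' x) = N (ι x)) : Loc f' N' q := by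
  refine ⟨h.q1, fun x => ?_, fun μ x hx hfx => ?_⟩
  · apply hι
    rw [hN, hf, h.comm, map_smul, hf, hN]
  · refine h.ev μ (ι x) ?_ ?_
    · rwa [Ne, map_eq_zero_iff _ hι]
    · rw [← hf, hfx, map_smul]

theorem pow_sub (ι : V' →ₗ[ℂ] V) (hN : ∀ x, ι (N' x) = N (ι x)) (j : ℕ) (x : V') :
    ι ((N' ^ j) x) = (N ^ j) (ι x) := by
  induction j generalizing x with
  | zero => rfl
  | succ j ih => rw [pow_succ, Module.End.mul_apply, ih, hN, pow_succ, Module.End.mul_apply]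

theorem MW.sub (h : MW f N q w) (ι : V' →ₗ[ℂ] V) (hι : Function.Injective ι)
    (hf : ∀ x, ι (f' x) = f (ι x)) (hN : ∀ x, ι (N' x) = N (ι x)) : MW f' N' q w := by
  intro j hj μ hμ x hx hfx h0
  refine h j hj μ hμ (ι x) ?_ ?_ ?_
  · rwa [Ne, map_eq_zero_iff _ hι]
  · rw [← hf, hfx, map_smul]
  · rw [← pow_sub ι hN, h0, map_zero]

theorem mw_of_lef {m : ℕ} (h : Lef f N (Sq q w m) m) : MW f N q w := by
  intro j hj μ hμ x hx hfx
  refine h j hj μ ?_ x hx hfx
  show ‖μ‖ ^ 2 = (q : ℝ) ^ ((m : ℤ) + j - m + w)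
  rw [hμ]
  congr 1
  ring

/-- at most one block of each size implies the monodromy-weight property -/
theorem mw_of_block (h : Loc f N q) (B : V →ₗ[ℂ] V →ₗ[ℂ] ℂ)
    (Bf : ∀ x y, B (f x) (f y) = (q : ℂ) ^ w * B x y) (BN : ∀ x y, B (N x) y + B x (N y) = 0)
    (Bnd : ∀ x, (∀ y, B x y = 0) → x = 0) (hb : Blk N) : MW f N q w := by
  obtain ⟨m, hm⟩ := h.bound w
  exact mw_of_lef (lef_of_block (h.wt (hm m le_rfl)) (dual_inst h.q1 m B Bf BN Bnd) hb)

/-- the largest weight in an object with symmetric weights -/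
theorem exists_top {m : ℕ} (hW' : Wt f' N' (q : ℂ) (Sq q w m) m)
    (hs : ∀ i : ℤ, a f' q w m i = a f' q w m (-i)) (hne : Nontrivial V') :
    ∃ (j : ℕ) (μ : ℂ) (x : V'), μ ∈ Sq q w m (m + j) ∧ x ≠ 0 ∧ f' x = μ • x ∧
      (N' ^ (j + 1)) x = 0 := by
  classical
  -- there is a nonzero part of nonnegative weight
  have hex : ∃ j : ℕ, sp f' (Sq q w m (m + j)) ≠ ⊥ := by
    obtain ⟨μ, x, -, hx0, hfx⟩ := exists_eig (f := f') (U := ⊤) (fun _ _ => trivial)
      top_ne_bot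
    obtain ⟨u, hu0, hu1, hu⟩ := hW'.ev μ x hx0 hfx
    have h1 : sp f' (Sq q w m u) ≠ ⊥ := by
      intro hb
      have h2 : x ∈ sp f' (Sq q w m u) := gen_le_sp hu (mem_gen_of_eig hfx)
      rw [hb, Submodule.mem_bot] at h2
      exact hx0 h2
    rcases le_total (m : ℤ) u with h2 | h2
    · refine ⟨(u - m).toNat, ?_⟩
      have h3 : (m : ℤ) + ((u - m).toNat : ℤ) = u := by omega
      rwa [h3]
    · refine ⟨(m - u).toNat, fun hb => h1 ?_⟩
      have h3 := hs (u - m)
      unfold a at h3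
      have h4 : (m : ℤ) + (u - m) = u := by ring
      have h5 : (m : ℤ) + -(u - m) = m + ((m - u).toNat : ℤ) := by omega
      rw [h4, h5, hb, finrank_bot] at h3
      exact Submodule.finrank_eq_zero.1 (by exact_mod_cast h3)
  have hbd : ∀ j : ℕ, sp f' (Sq q w m (m + j)) ≠ ⊥ → j ≤ m := by
    intro j hj
    obtain ⟨μ, x, hx, hx0, hfx⟩ := exists_eig (f := f') (fun x hx => sp_stable hx) hj
    obtain ⟨u, hu0, hu1, hu⟩ := hW'.ev μ x hx0 hfx
    have h1 := hW'.disj μ _ _ hu (eig_mem_of_sp hx0 hfx hx)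
    omega
  -- take the largest one
  let P : ℕ → Prop := fun j => sp f' (Sq q w m (m + j)) ≠ ⊥
  obtain ⟨j₀, hj₀⟩ := hex
  set j := Nat.findGreatest P m with hj
  have hPj : P j := Nat.findGreatest_spec (P := P) (hbd j₀ hj₀) hj₀
  have hmax : ∀ i, j < i → sp f' (Sq q w m (m + i)) = ⊥ := by
    intro i hi
    by_contra hcon
    have h1 := Nat.le_findGreatest (P := P) (hbd i hcon) hcon
    omega
  obtain ⟨μ, x, hx, hx0, hfx⟩ := exists_eig (f := f') (fun x hx => sp_stable hx) hPj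
  have hNx : (N' ^ (j + 1)) x = 0 := by
    have h1 := hW'.pow_sp (j + 1) hx
    have h2 : sp f' (Sq q w m (m + j - 2 * ((j + 1 : ℕ) : ℤ))) = ⊥ := by
      have h3 := hs ((j + 2 : ℕ) : ℤ)
      unfold a at h3
      have h4 : (m : ℤ) + -((j + 2 : ℕ) : ℤ) = m + j - 2 * ((j + 1 : ℕ) : ℤ) := by
        push_cast; ring
      rw [h4, hmax (j + 2) (by omega), finrank_bot] at h3
      exact Submodule.finrank_eq_zero.1 (by exact_mod_cast h3.symm)
    rw [h2, Submodule.mem_bot] at h1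
    exact h1
  exact ⟨j, μ, x, eig_mem_of_sp hx0 hfx hx, hx0, hfx, hNx⟩

/-- **An isotropic subobject with symmetric weights is zero** if no two Jordan blocks have the
same size. -/
theorem iso_absurd (h : Loc f N q) (hL : MW f N q w) (B : V →ₗ[ℂ] V →ₗ[ℂ] ℂ)
    (Bf : ∀ x y, B (f x) (f y) = (q : ℂ) ^ w * B x y) (BN : ∀ x y, B (N x) y + B x (N y) = 0)
    (Bnd : ∀ x, (∀ y, B x y = 0) → x = 0) (hb : Blk N)
    (ι : V' →ₗ[ℂ] V) (hι : Function.Injective ι)
    (hf : ∀ x, ι (f' x) = f (ι x)) (hN : ∀ x, ι (N' x) = N (ι x))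
    (hsym : ∀ m : ℕ, (∀ μ ∈ f'.charpoly.roots,
        ∀ u : ℤ, ‖μ‖ ^ 2 = (q : ℝ) ^ u → w - m ≤ u ∧ u ≤ w + m) →
        ∀ i : ℤ, a f' q w m i = a f' q w m (-i))
    (hiso : ∀ x y, B (ι x) (ι y) = 0) (hne : Nontrivial V') : False := by
  classical
  have h' : Loc f' N' q := h.sub ι hι hf hN
  obtain ⟨m₁, hm₁⟩ := h.bound w
  obtain ⟨m₂, hm₂⟩ := h'.bound w
  set m := max m₁ m₂ with hm
  have hW := h.wt (hm₁ m (le_max_left _ _))
  have hW' := h'.wt (hm₂ m (le_max_right _ _))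
  have hLef := hL.lef m
  obtain ⟨j, μ, x, hμ, hx0, hfx, hNx⟩ := exists_top hW' (hsym m (hm₂ m (le_max_right _ _))) hne
  refine no_iso hW (dual_inst h.q1 m B Bf BN Bnd) hLef hb (j := j) (x := ι x) ?_ ?_ ?_ ?_
  · rwa [Ne, map_eq_zero_iff _ hι]
  · exact gen_le_sp hμ (mem_gen_of_eig (by rw [← hf, hfx, map_smul]))
  · rw [← pow_sub ι hN, hNx, map_zero]
  · rw [← pow_sub ι hN]
    exact hiso _ _

end complex

section single

variable {V : Type*} [AddCommGroup V] [Module ℂ V] [FiniteDimensional ℂ V]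
  {V' : Type*} [AddCommGroup V'] [Module ℂ V'] [FiniteDimensional ℂ V']
  {f N : Module.End ℂ V} {f' N' : Module.End ℂ V'} {q : ℕ} {w : ℤ}

theorem ker_mono (N : Module.End ℂ V) (k : ℕ) :
    LinearMap.ker (N ^ k) ≤ LinearMap.ker (N ^ (k + 1)) := by
  intro x hx
  have h1 : (N ^ k) x = 0 := hx
  rw [LinearMap.mem_ker, pow_succ', Module.End.mul_apply, h1, map_zero]

theorem finrank_ker_succ_le (N : Module.End ℂ V) (k : ℕ) :
    finrank ℂ (LinearMap.ker (N ^ (k + 1))) ≤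
      finrank ℂ (LinearMap.ker (N ^ k)) + finrank ℂ (LinearMap.ker N) := by
  have h1 := finrank_map_ker N (k := k + 1) (by omega)
  have h2 : (LinearMap.ker (N ^ (k + 1))).map N ≤ LinearMap.ker (N ^ k) := by
    rintro _ ⟨x, hx, rfl⟩
    have hx' : (N ^ (k + 1)) x = 0 := hx
    rw [LinearMap.mem_ker, ← Module.End.mul_apply, ← pow_succ, hx']
  have h3 := Submodule.finrank_mono h2
  omega

theorem finrank_ker_le (N : Module.End ℂ V) (h : finrank ℂ (LinearMap.ker N) ≤ 1) (k : ℕ) :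
    finrank ℂ (LinearMap.ker (N ^ k)) ≤ k := by
  induction k with
  | zero =>
    have h1 : LinearMap.ker (N ^ 0) = ⊥ := by
      rw [pow_zero]
      exact LinearMap.ker_id
    rw [h1, finrank_bot]
  | succ k ih =>
    have := finrank_ker_succ_le N k
    omega

theorem ker_stab (N : Module.End ℂ V) {k : ℕ}
    (h : LinearMap.ker (N ^ (k + 1)) = LinearMap.ker (N ^ k)) (i : ℕ) :
    LinearMap.ker (N ^ (k + i)) = LinearMap.ker (N ^ k) := by
  induction i with
  | zero => rfl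
  | succ i ih =>
    apply le_antisymm
    · intro x hx
      have hx' : (N ^ (k + (i + 1))) x = 0 := hx
      have h1 : (N ^ k) ((N ^ (i + 1)) x) = 0 := by
        rw [← Module.End.mul_apply, ← pow_add]
        exact hx'
      have h3 : (N ^ i) x ∈ LinearMap.ker (N ^ (k + 1)) := by
        rw [LinearMap.mem_ker, pow_succ, Module.End.mul_apply, ← Module.End.mul_apply N,
          ← pow_succ']
        exact h1
      rw [h] at h3
      rw [← ih, LinearMap.mem_ker, pow_add, Module.End.mul_apply]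
      exact h3
    · rw [← ih]
      exact ker_mono N (k + i)

theorem le_finrank_ker {N : Module.End ℂ V} {x : V} {j : ℕ} (h0 : (N ^ j) x ≠ 0)
    (h1 : (N ^ (j + 1)) x = 0) (i : ℕ) (hi : i ≤ j + 1) :
    i ≤ finrank ℂ (LinearMap.ker (N ^ i)) := by
  induction i with
  | zero => exact Nat.zero_le _
  | succ i ih =>
    have h2 := ih (by omega)
    have h3 : LinearMap.ker (N ^ i) < LinearMap.ker (N ^ (i + 1)) := by
      refine lt_of_le_of_ne (ker_mono N i) fun he => ?_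
      obtain ⟨t, rfl⟩ : ∃ t, j = i + t := ⟨j - i, by omega⟩
      have h4 : (N ^ t) x ∈ LinearMap.ker (N ^ (i + 1)) := by
        rw [LinearMap.mem_ker, ← Module.End.mul_apply, ← pow_add]
        have h5 : i + 1 + t = i + t + 1 := by omega
        rw [h5]
        exact h1
      rw [← he, LinearMap.mem_ker, ← Module.End.mul_apply, ← pow_add] at h4
      exact h0 h4
    have h6 := Submodule.finrank_lt_finrank_of_lt h3
    omega

/-- **A subobject with symmetric weights** of an object with one Jordan block is zero or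
everything. -/
theorem all_of_single (h : Loc f N q) (hL : MW f N q w) (hnil : ∃ n, N ^ n = 0)
    (hk : finrank ℂ (LinearMap.ker N) ≤ 1)
    (ι : V' →ₗ[ℂ] V) (hι : Function.Injective ι)
    (hf : ∀ x, ι (f' x) = f (ι x)) (hN : ∀ x, ι (N' x) = N (ι x))
    (hsym : ∀ m : ℕ, (∀ μ ∈ f'.charpoly.roots,
        ∀ u : ℤ, ‖μ‖ ^ 2 = (q : ℝ) ^ u → w - m ≤ u ∧ u ≤ w + m) →
        ∀ i : ℤ, a f' q w m i = a f' q w m (-i))
    (hne : Nontrivial V') : finrank ℂ V ≤ finrank ℂ V' := by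
  classical
  have h' : Loc f' N' q := h.sub ι hι hf hN
  obtain ⟨m₁, hm₁⟩ := h.bound w
  obtain ⟨m₂, hm₂⟩ := h'.bound w
  set m := max m₁ m₂ with hm
  have hW := h.wt (hm₁ m (le_max_left _ _))
  have hW' := h'.wt (hm₂ m (le_max_right _ _))
  have hLef := hL.lef m
  obtain ⟨j, μ, x, hμ, hx0, hfx, hNx⟩ := exists_top hW' (hsym m (hm₂ m (le_max_right _ _))) hne
  have hx : x ∈ sp f' (Sq q w m (m + j)) := gen_le_sp hμ (mem_gen_of_eig hfx)
  have hιx0 : ι x ≠ 0 := by rwa [Ne, map_eq_zero_iff _ hι]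
  have hιx : ι x ∈ sp f (Sq q w m (m + j)) :=
    gen_le_sp hμ (mem_gen_of_eig (by rw [← hf, hfx, map_smul]))
  have hιN : (N ^ (j + 1)) (ι x) = 0 := by rw [← pow_sub ι hN, hNx, map_zero]
  have hxK : ι x ∉ KK N (j + 1) := fun hK => hιx0 (KK_sp hW hLef hK hιx)
  have hlt : finrank ℂ (KK N (j + 1)) < finrank ℂ (LinearMap.ker (N ^ (j + 1))) := by
    apply Submodule.finrank_lt_finrank_of_lt
    refine lt_of_le_of_ne (KK_le (by omega)) fun he => hxK ?_
    rw [he]
    exact hιN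
  have h1 := finrank_KK N (k := j + 1) (by omega)
  have h2 := finrank_ker_succ_le N j
  have h3 := Submodule.finrank_mono (ker_mono N (j + 1))
  have h4 : LinearMap.ker (N ^ (j + 1 + 1)) = LinearMap.ker (N ^ (j + 1)) := by
    symm
    apply Submodule.eq_of_le_of_finrank_le (ker_mono N (j + 1))
    have h5 : j + 1 - 1 = j := by omega
    rw [h5] at h1
    omega
  have h6 : LinearMap.ker (N ^ (j + 1)) = ⊤ := by
    obtain ⟨n, hn⟩ := hnil
    rw [← ker_stab N h4 n, pow_add, hn, mul_zero]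
    exact LinearMap.ker_zero
  have h7 := finrank_ker_le N hk (j + 1)
  rw [h6, finrank_top] at h7
  have h8 : (N' ^ j) x ≠ 0 := by
    intro h0
    apply hιx0
    refine hLef.inj hW j hιx ?_
    rw [← pow_sub ι hN, h0, map_zero]
  have h9 := le_finrank_ker h8 hNx (j + 1) le_rfl
  have h10 := Submodule.finrank_le (LinearMap.ker (N' ^ (j + 1)))
  omega

end single

end Pool.Agent.V8H84.WM
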