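import Mathlib

/-!
# Ranks, exponentials of nilpotent matrices
-/

set_option autoImplicit false
set_option linter.unusedSectionVars false

namespace Pool.Agent.V8H84.WM

open Matrix Module

section rank

variable {K L : Type*} [Field K] [Field L]

/-- The rank does not change under extensions of the field. -/
theorem rank_map {n : ℕ} (j : K →+* L) (A : Matrix (Fin n) (Fin n) K) :
    (A.map j).rank = A.rank := by
  classical
  obtain ⟨P, Q, D, hD⟩ := Matrix.Pivot.exists_list_transvec_mul_mul_list_transvec_eq_diagonal A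
  set P' := (P.map Matrix.TransvectionStruct.toMatrix).prod with hP'
  set Q' := (Q.map Matrix.TransvectionStruct.toMatrix).prod with hQ'
  have hP : P'.det = 1 := Matrix.TransvectionStruct.det_toMatrix_prod P
  have hQ : Q'.det = 1 := Matrix.TransvectionStruct.det_toMatrix_prod Q
  have h1 : A.rank = (Matrix.diagonal D).rank := by
    rw [← hD, Matrix.rank_mul_eq_left_of_isUnit_det Q' _ (by rw [hQ]; exact isUnit_one),
      Matrix.rank_mul_eq_right_of_isUnit_det P' _ (by rw [hP]; exact isUnit_one)]
  have hmap : ∀ X : Matrix (Fin n) (Fin n) K, (X.map j).det = j X.det := by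
    intro X
    rw [← RingHom.mapMatrix_apply, ← RingHom.map_det]
  have h2 : (A.map j).rank = (Matrix.diagonal fun i => j (D i)).rank := by
    have h3 : (Matrix.diagonal fun i => j (D i)) = P'.map j * A.map j * Q'.map j := by
      rw [← Matrix.map_mul, ← Matrix.map_mul, hD]
      exact (Matrix.diagonal_map (map_zero j)).symm
    rw [h3, Matrix.rank_mul_eq_left_of_isUnit_det (Q'.map j) _ (by
        rw [hmap, hQ, map_one]; exact isUnit_one),
      Matrix.rank_mul_eq_right_of_isUnit_det (P'.map j) _ (by
        rw [hmap, hP, map_one]; exact isUnit_one)]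
  rw [h1, h2, Matrix.rank_diagonal, Matrix.rank_diagonal]
  refine Fintype.card_congr (Equiv.subtypeEquivRight fun i => ?_)
  simp only [ne_eq, map_eq_zero]

end rank

section coeff

variable {K : Type*} [Field K] [CharZero K] {E : Type*} [AddCommGroup E] [Module K E]

/-- The coefficients of a polynomial with values in a subspace. -/
theorem coeff_mem (U : Submodule K E) (n : ℕ) (g : ℕ → E)
    (h : ∀ k : ℕ, ∑ i ∈ Finset.range n, ((k : K) ^ i) • g i ∈ U) : ∀ i < n, g i ∈ U := by
  intro i hi
  by_contra hcon
  obtain ⟨φ, hφ1, hφ2⟩ := Submodule.exists_dual_map_eq_bot_of_notMem hcon inferInstance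
  set P : Polynomial K := ∑ i ∈ Finset.range n, Polynomial.C (φ (g i)) * Polynomial.X ^ i with hP
  have h1 : ∀ k : ℕ, P.eval (k : K) = 0 := by
    intro k
    have h2 : φ (∑ i ∈ Finset.range n, ((k : K) ^ i) • g i) ∈ U.map φ :=
      Submodule.mem_map_of_mem (h k)
    rw [hφ2, Submodule.mem_bot, map_sum] at h2
    rw [hP, Polynomial.eval_finsetSum, ← h2]
    refine Finset.sum_congr rfl fun i _ => ?_
    rw [Polynomial.eval_mul, Polynomial.eval_C, Polynomial.eval_pow, Polynomial.eval_X, map_smul,
      smul_eq_mul, mul_comm]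
  have h3 : P = 0 := by
    apply Polynomial.eq_zero_of_infinite_isRoot
    refine Set.Infinite.mono (s := Set.range (fun k : ℕ => (k : K))) ?_
      (Set.infinite_range_of_injective Nat.cast_injective)
    rintro _ ⟨k, rfl⟩
    exact h1 k
  have h4 : P.coeff i = φ (g i) := by
    rw [hP, Polynomial.finsetSum_coeff]
    simp only [Polynomial.coeff_C_mul, Polynomial.coeff_X_pow, mul_ite, mul_one, mul_zero]
    rw [Finset.sum_ite_eq, if_pos (Finset.mem_range.2 hi)]
  rw [h3, Polynomial.coeff_zero] at h4
  exact hφ1 h4.symm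

end coeff

section expo

variable {K : Type*} [Field K] [CharZero K] {n : ℕ}

/-- The exponential of a nilpotent matrix `N`, a sum of `n` terms. -/
noncomputable def expo (N : Matrix (Fin n) (Fin n) K) : Matrix (Fin n) (Fin n) K :=
  ∑ i ∈ Finset.range n, ((i.factorial : ℕ) : K)⁻¹ • N ^ i

theorem expo_eq {N : Matrix (Fin n) (Fin n) K} (h : N ^ n = 0) : expo N = IsNilpotent.exp N := by
  rw [IsNilpotent.exp_eq_sum h]
  unfold expo
  refine Finset.sum_congr rfl fun i _ => ?_
  have h1 : ((i.factorial : ℕ) : K)⁻¹ = (((i.factorial : ℕ) : ℚ)⁻¹ : ℚ) := by push_cast; rfl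
  rw [h1, Rat.cast_smul_eq_qsmul]

theorem smul_nil {N : Matrix (Fin n) (Fin n) K} (h : N ^ n = 0) (t : K) : (t • N) ^ n = 0 := by
  rw [smul_pow, h, smul_zero]

/-- The powers of the exponential. -/
theorem expo_pow {N : Matrix (Fin n) (Fin n) K} (h : N ^ n = 0) (k : ℕ) :
    expo N ^ k = expo ((k : K) • N) := by
  induction k with
  | zero =>
    rw [pow_zero, Nat.cast_zero, zero_smul]
    rcases Nat.eq_zero_or_pos n with hn | hn
    · subst hn
      exact Subsingleton.elim _ _
    · have h1 : (0 : Matrix (Fin n) (Fin n) K) ^ n = 0 := zero_pow hn.ne'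
      rw [expo_eq h1, IsNilpotent.exp_zero]
  | succ k ih =>
    have h1 : ((k + 1 : ℕ) : K) • N = (k : K) • N + N := by
      rw [Nat.cast_succ, add_smul, one_smul]
    have h2 : Commute ((k : K) • N) N := (Commute.refl N).smul_left _
    rw [pow_succ, ih, expo_eq (smul_nil h _), expo_eq h, expo_eq (smul_nil h _), h1,
      IsNilpotent.exp_add_of_commute h2 ⟨n, smul_nil h _⟩ ⟨n, h⟩]

theorem expo_neg {N : Matrix (Fin n) (Fin n) K} (h : N ^ n = 0) : expo N * expo (-N) = 1 := by
  have h1 : (-N) ^ n = 0 := by rw [neg_pow, h, mul_zero]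
  rw [expo_eq h, expo_eq h1, IsNilpotent.exp_mul_exp_neg_self ⟨n, h⟩]

theorem expo_smul_sum (N : Matrix (Fin n) (Fin n) K) (t : K) :
    expo (t • N) = ∑ i ∈ Finset.range n, (t ^ i) • (((i.factorial : ℕ) : K)⁻¹ • N ^ i) := by
  unfold expo
  refine Finset.sum_congr rfl fun i _ => ?_
  rw [smul_pow, smul_comm]

/-- A subspace stable under the exponential is stable under the nilpotent matrix. -/
theorem stable_log {N : Matrix (Fin n) (Fin n) K} (h : N ^ n = 0)
    {U : Submodule K (Fin n → K)} (hU : ∀ x ∈ U, expo N *ᵥ x ∈ U) :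
    ∀ x ∈ U, N *ᵥ x ∈ U := by
  intro x hx
  rcases Nat.lt_or_ge 1 n with hn | hn
  · have h1 : ∀ k : ℕ, (expo N ^ k) *ᵥ x ∈ U := by
      intro k
      induction k with
      | zero => rwa [pow_zero, one_mulVec]
      | succ k ih =>
        rw [pow_succ', ← mulVec_mulVec]
        exact hU _ ih
    have h2 := coeff_mem U n (fun i => (((i.factorial : ℕ) : K)⁻¹ • N ^ i) *ᵥ x) (by
      intro k
      have h3 := h1 k
      rw [expo_pow h, expo_smul_sum, sum_mulVec] at h3
      simpa only [smul_mulVec] using h3) 1 hn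
    simpa using h2
  · have h1 : N = 0 := by
      interval_cases n
      · exact Subsingleton.elim _ _
      · simpa using h
    rw [h1, zero_mulVec]
    exact Submodule.zero_mem _

/-- An isometry is the exponential of a skew matrix. -/
theorem skew_log {N J : Matrix (Fin n) (Fin n) K} (h : N ^ n = 0)
    (hJ : (expo N)ᵀ * J * expo N = J) : Nᵀ * J + J * N = 0 := by
  rcases Nat.lt_or_ge 1 n with hn | hn
  · have h1 : ∀ k : ℕ, (expo N ^ k)ᵀ * J * expo N ^ k = J := by
      intro k
      induction k with
      | zero => rw [pow_zero, transpose_one, Matrix.one_mul, Matrix.mul_one]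
      | succ k ih =>
        have h2 : (expo N ^ (k + 1))ᵀ * J * expo N ^ (k + 1) =
            (expo N)ᵀ * ((expo N ^ k)ᵀ * J * expo N ^ k) * expo N := by
          rw [pow_succ, transpose_mul]
          simp only [Matrix.mul_assoc]
        rw [h2, ih, hJ]
    have h2 : ∀ k : ℕ, (expo ((k : K) • N))ᵀ * J = J * expo ((k : K) • (-N)) := by
      intro k
      have h3 := h1 k
      rw [expo_pow h] at h3
      have h4 := congrArg (fun A => A * expo ((k : K) • (-N))) h3
      simp only [Matrix.mul_assoc] at h4
      rw [smul_neg, expo_neg (smul_nil h _), Matrix.mul_one] at h4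
      rw [smul_neg]
      exact h4
    have h5 := coeff_mem (K := K) (⊥ : Submodule K (Matrix (Fin n) (Fin n) K)) n
      (fun i => (((i.factorial : ℕ) : K)⁻¹ • N ^ i)ᵀ * J -
        J * (((i.factorial : ℕ) : K)⁻¹ • (-N) ^ i)) (by
      intro k
      have h3 := h2 k
      rw [expo_smul_sum, expo_smul_sum, transpose_sum, Matrix.sum_mul, Matrix.mul_sum,
        ← sub_eq_zero, ← Finset.sum_sub_distrib] at h3
      rw [Submodule.mem_bot, ← h3]
      refine Finset.sum_congr rfl fun i _ => ?_
      simp only [transpose_smul, Matrix.smul_mul, Matrix.mul_smul, smul_sub]) 1 hn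
    rw [Submodule.mem_bot] at h5
    simpa using h5
  · have h1 : N = 0 := by
      interval_cases n
      · exact Subsingleton.elim _ _
      · simpa using h
    rw [h1, transpose_zero, Matrix.zero_mul, Matrix.mul_zero, add_zero]

theorem expo_unip {N : Matrix (Fin n) (Fin n) K} (h : N ^ n = 0) : IsNilpotent (expo N - 1) := by
  rw [expo_eq h]
  exact IsNilpotent.isNilpotent_exp_sub_one ⟨n, h⟩

end expo

section det

variable {K : Type*} [Field K] {E : Type*} [AddCommGroup E] [Module K E] [FiniteDimensional K E]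

/-- The determinant of a unipotent endomorphism. -/
theorem det_unip (f : Module.End K E) (h : IsNilpotent (f - 1)) : LinearMap.det f = 1 := by
  have h1 : IsNilpotent (1 - f) := by
    have h2 : 1 - f = -(f - 1) := by abel
    rw [h2]
    exact h.neg
  have h3 := LinearMap.eval_charpoly (1 - f) 1
  rw [h1.charpoly_eq_X_pow_finrank, Polynomial.eval_pow, Polynomial.eval_X, one_pow, map_one,
    sub_sub_cancel] at h3
  exact h3.symm

end det

end Pool.Agent.V8H84.WM
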