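import Pool.Agent.V8H84.HT.Defs
import Pool.Agent.V8H84.WM.Lin

/-!
# The monodromy operators of an `ℓ`-adic representation: definitions
-/

set_option autoImplicit false

namespace Pool.Agent.V8H84.WM

open Pool.Agent.V8H84.HT NumberField IsDedekindDomain Matrix

variable {F : Type} [Field F] [NumberField F] {ℓ : ℕ} [Fact ℓ.Prime] {n : ℕ}

/-- `N` is a monodromy operator of `ρ` at the prime `Q` above the place `v` (Grothendieck's
monodromy theorem): it is nilpotent; for some `M > 0` all elements `g` of the inertia group of `Q`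
satisfy `ρ(g) ^ M = exp(t N)` for a number `t`, with `t = 1` for some `g`; and `N φ = q v • φ N` for
all geometric Frobenius elements `φ = ρ(g⁻¹)` at `Q`. -/
structure Monodromy (ρ : Gal(AlgebraicClosure F/F) →* GL (Fin n) ℚ_[ℓ])
    (v : HeightOneSpectrum (𝓞 F)) (Q : Ideal (𝓞 (AlgebraicClosure F)))
    (N : Matrix (Fin n) (Fin n) ℚ_[ℓ]) : Prop where
  nilpotent : N ^ n = 0
  inertia : ∃ M : ℕ, 0 < M ∧
    (∀ g : Gal(AlgebraicClosure F/F), (∀ x : 𝓞 (AlgebraicClosure F), g • x - x ∈ Q) →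
      ∃ t : ℚ_[ℓ], mat ρ g ^ M = expo (t • N)) ∧
    ∃ g : Gal(AlgebraicClosure F/F), (∀ x : 𝓞 (AlgebraicClosure F), g • x - x ∈ Q) ∧
      mat ρ g ^ M = expo N
  frobenius : ∀ g : Gal(AlgebraicClosure F/F),
    (∀ x : 𝓞 (AlgebraicClosure F), g • x - x ^ q v ∈ Q) →
      N * mat ρ g⁻¹ = (q v : ℚ_[ℓ]) • (mat ρ g⁻¹ * N)

/-- For the embedding `j` of `ℚ_ℓ` into the complex numbers all eigenvalues of the geometric
Frobenius elements at `Q` have integral weights. -/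
def IntegralWeights (ρ : Gal(AlgebraicClosure F/F) →* GL (Fin n) ℚ_[ℓ]) (j : ℚ_[ℓ] →+* ℂ)
    (v : HeightOneSpectrum (𝓞 F)) (Q : Ideal (𝓞 (AlgebraicClosure F))) : Prop :=
  ∀ g : Gal(AlgebraicClosure F/F), (∀ x : 𝓞 (AlgebraicClosure F), g • x - x ^ q v ∈ Q) →
    ∀ μ ∈ ((mat ρ g⁻¹).map j).charpoly.roots, ∃ u : ℤ, ‖μ‖ ^ 2 = (q v : ℝ) ^ u

/-- The monodromy-weight property: `N ^ i` is injective on the eigenvectors of weight `w + i` of
the geometric Frobenius elements at `Q`, for all `i ≥ 1`. -/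
def MonodromyWeight (ρ : Gal(AlgebraicClosure F/F) →* GL (Fin n) ℚ_[ℓ]) (j : ℚ_[ℓ] →+* ℂ) (w : ℤ)
    (v : HeightOneSpectrum (𝓞 F)) (Q : Ideal (𝓞 (AlgebraicClosure F)))
    (N : Matrix (Fin n) (Fin n) ℚ_[ℓ]) : Prop :=
  ∀ g : Gal(AlgebraicClosure F/F), (∀ x : 𝓞 (AlgebraicClosure F), g • x - x ^ q v ∈ Q) →
    ∀ i : ℕ, 1 ≤ i → ∀ μ : ℂ, ‖μ‖ ^ 2 = (q v : ℝ) ^ (w + i) → ∀ x : Fin n → ℂ, x ≠ 0 →
      (mat ρ g⁻¹).map j *ᵥ x = μ • x → (N ^ i).map j *ᵥ x ≠ 0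

/-- The number of Jordan blocks of size `i ≥ 1` of the nilpotent matrix `N`. -/
noncomputable def blocks (N : Matrix (Fin n) (Fin n) ℚ_[ℓ]) (i : ℕ) : ℕ :=
  (N ^ (i - 1)).rank + (N ^ (i + 1)).rank - 2 * (N ^ i).rank

/-- `k` is the total size of some of the Jordan blocks of `N`: `s i` blocks of size `i`, where
`c * s i` is at most the number of all blocks of size `i`. For `c = 2` these are at most half of the
blocks of each size. -/
def TotalSize (N : Matrix (Fin n) (Fin n) ℚ_[ℓ]) (c k : ℕ) : Prop :=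
  ∃ s : ℕ → ℕ, (∀ i, 1 ≤ i → c * s i ≤ blocks N i) ∧ ∑ i ∈ Finset.range (n + 1), i * s i = k

end Pool.Agent.V8H84.WM
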