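import Pool.Agent.V8H84.HT.Main

/-!
# The determinant of a stable subspace of a Hodge-Tate representation, for arbitrary weights
-/

set_option autoImplicit false
set_option linter.unusedSectionVars false

namespace Pool.Agent.V8H84.WM

open Pool.Agent.W292.FM Pool.Agent.W569.FM Pool.Agent.Y115.Lg Pool.Agent.Y115.Z
  Pool.Agent.Y115.CQ Pool.Agent.Y115.Chi Pool.Agent.Y115.T Pool.Agent.Y115.R Matrix Module
  Pool.Agent.V8H84.HT

section weights

variable {p : ℕ} [hp : Fact p.Prime]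

/-- **The determinant of a stable subspace** is Hodge-Tate. -/
theorem weights_weak {n k : ℕ} (H : Subgroup Gal(PadicAlgCl p/ℚ_[p]))
    (R : Gal(PadicAlgCl p/ℚ_[p]) → Matrix (Fin n) (Fin n) ℚ_[p])
    (M : Matrix (Fin n) (Fin n) ℂ_[p]) (hM : M.det ≠ 0) (m : Fin n → ℤ)
    (hHT : ∀ σ ∈ H, (R σ).map (al p) * M.map (cm σ) = M * dg σ m)
    (B : Matrix (Fin n) (Fin k) ℚ_[p]) (L : Matrix (Fin k) (Fin n) ℚ_[p]) (hB : L * B = 1)
    (r : Gal(PadicAlgCl p/ℚ_[p]) → Matrix (Fin k) (Fin k) ℚ_[p])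
    (hr : ∀ σ ∈ H, R σ * B = B * r σ) :
    ∃ (f : Fin k → Fin n) (y : ℂ_[p]), Function.Injective f ∧
      y ≠ 0 ∧ ∀ σ ∈ H, cpMap p σ y = kc σ (∑ i, m (f i)) * al p (r σ).det * y := by
  have hMu : IsUnit M.det := isUnit_iff_ne_zero.2 hM
  set B' := B.map (al p) with hB'
  set Y := M⁻¹ * B' with hY
  have hMY : M * Y = B' := by rw [hY, ← Matrix.mul_assoc, Matrix.mul_nonsing_inv _ hMu,
    Matrix.one_mul]
  obtain ⟨f, hf, hdet⟩ := exists_rows Y (L.map (al p) * M) (by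
    rw [Matrix.mul_assoc, hMY, hB', ← Matrix.map_mul, hB]
    exact Matrix.map_one _ (map_zero _) (map_one _))
  set Yf := Y.submatrix f id with hYf
  -- the basic relation
  have hrel : ∀ σ ∈ H, dg σ m * Y.map (cm σ) = Y * (r σ).map (al p) := by
    intro σ hσ
    have h1 : (R σ).map (al p) * B' = M * (dg σ m * Y.map (cm σ)) := by
      have h2 : B' = M.map (cm σ) * Y.map (cm σ) := by
        rw [← Matrix.map_mul, hMY, hB', map_cm_al]
      rw [h2, ← Matrix.mul_assoc, hHT σ hσ, Matrix.mul_assoc]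
    have h3 : (R σ).map (al p) * B' = M * (Y * (r σ).map (al p)) := by
      rw [← Matrix.mul_assoc, hMY, hB', ← Matrix.map_mul, ← Matrix.map_mul, hr σ hσ]
    have h4 := h1.symm.trans h3
    have h5 := congrArg (fun A => M⁻¹ * A) h4
    simp only [← Matrix.mul_assoc, Matrix.nonsing_inv_mul _ hMu, Matrix.one_mul] at h5
    exact h5
  have hrelf : ∀ σ ∈ H, dg σ (m ∘ f) * Yf.map (cm σ) = Yf * (r σ).map (al p) := by
    intro σ hσ
    have h1 := congrArg (fun A => A.submatrix f id) (hrel σ hσ)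
    ext i j
    have h2 := congrFun (congrFun h1 i) j
    simp only [Matrix.submatrix_apply, id] at h2
    unfold dg at h2 ⊢
    rw [Matrix.diagonal_mul] at h2 ⊢
    exact h2
  refine ⟨f, Yf.det, hf, hdet, fun σ hσ => ?_⟩
  have h1 := congrArg Matrix.det (hrelf σ hσ)
  rw [Matrix.det_mul, Matrix.det_mul] at h1
  have h2 : (Yf.map (cm σ)).det = cm σ Yf.det := by
    rw [← RingHom.mapMatrix_apply, ← RingHom.map_det]
  have h3 : ((r σ).map (al p)).det = al p (r σ).det := by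
    rw [← RingHom.mapMatrix_apply, ← RingHom.map_det]
  have h4 : (dg σ (m ∘ f)).det = kc σ (-∑ i, m (f i)) := by
    unfold dg
    rw [Matrix.det_diagonal, ← Finset.sum_neg_distrib, kc_sum]
    rfl
  rw [h2, h3, h4] at h1
  have h5 : cpMap p σ Yf.det = cm σ Yf.det := rfl
  have h6 : kc σ (∑ i, m (f i)) * (kc σ (-∑ i, m (f i)) * cm σ Yf.det) = cm σ Yf.det := by
    rw [← mul_assoc, kc_neg, one_mul]
  rw [h5, ← h6, h1]
  ring

end weights

variable {ℓ : ℕ} [hℓ : Fact ℓ.Prime] {F : Type} [Field F] [NumberField F] {n : ℕ}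

/-- **The determinant of a stable subspace** of a Hodge-Tate representation. -/
theorem det_char_weak (ρ : GF F →* GL (Fin n) ℚ_[ℓ]) (hρ : Continuous ρ) (m : Fin n → ℤ)
    (hHT : HodgeTate ρ m)
    (W : Submodule ℚ_[ℓ] (Fin n → ℚ_[ℓ])) (hW : ∀ g, W ≤ W.comap (act ρ g)) :
    ∃ (S : ℤ) (N : ℕ), 0 < N ∧
      ∀ g, MonoidHom.transfer ((dt ρ W hW).comp (cc F)) g ^ N = chiE ℓ ℚ_[ℓ] g ^ (-(S * N)) := by
  classical
  let _ : Fintype (GF ℚ ⧸ HH F) := Fintype.ofFinite _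
  obtain ⟨ι, res', hres⟩ := exists_res ℓ
  set H₀ : Subgroup Gal(PadicAlgCl ℓ/ℚ_[ℓ]) := (HH F).normalCore.comap res' with hH₀
  have hfi : H₀.FiniteIndex := by
    constructor
    rw [hH₀, Subgroup.index_comap]
    exact (Subgroup.instFiniteIndex_subgroupOf (HH F).normalCore res'.range).index_ne_zero
  -- the embeddings
  set τ : GF ℚ ⧸ HH F → AlgebraicClosure F →+* PadicAlgCl ℓ := fun q =>
    ι.comp (((q.out : AlgebraicClosure ℚ ≃+* AlgebraicClosure ℚ) :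
      AlgebraicClosure ℚ →+* AlgebraicClosure ℚ).comp
        (ee F : AlgebraicClosure F →+* AlgebraicClosure ℚ)) with hτ
  set γ : GF ℚ ⧸ HH F → Gal(PadicAlgCl ℓ/ℚ_[ℓ]) → GF F := fun q σ =>
    if hσ : res' σ ∈ (HH F).normalCore then cc F ⟨q.out⁻¹ * res' σ * q.out, core_conj hσ q.out⟩
      else 1 with hγ
  have hγτ : ∀ q, ∀ σ ∈ H₀, ∀ x, σ (τ q x) = τ q (γ q σ x) := by
    intro q σ hσ x
    have hσ' : res' σ ∈ (HH F).normalCore := hσ
    have e1 : γ q σ = cc F ⟨q.out⁻¹ * res' σ * q.out, core_conj hσ' q.out⟩ := dif_pos hσ'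
    rw [e1]
    show σ (ι (q.out (ee F x))) = ι (q.out (ee F (cc F _ x)))
    rw [ee_cc, hres]
    congr 1
    show (res' σ) (q.out (ee F x)) = q.out ((q.out⁻¹ * res' σ * q.out) (ee F x))
    have e2 : q.out * (q.out⁻¹ * res' σ * q.out) = res' σ * q.out := by group
    have e3 := congrArg (fun g : GF ℚ => g (ee F x)) e2
    exact e3.symm
  obtain ⟨L, hL⟩ := bm_left (K := ℚ_[ℓ]) W
  have key : ∀ q : GF ℚ ⧸ HH F, ∃ (f : Fin (finrank ℚ_[ℓ] W) → Fin n) (y : ℂ_[ℓ]),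
      Function.Injective f ∧ y ≠ 0 ∧
      ∀ σ ∈ H₀, cpMap ℓ σ y = kc σ (∑ i, m (f i)) *
        al ℓ ((dt ρ W hW (γ q σ) : ℚ_[ℓ]ˣ) : ℚ_[ℓ]) * y := by
    intro q
    obtain ⟨M, hM, hMσ⟩ := hHT (τ q)
    obtain ⟨f, y, hf, hy, hyσ⟩ := weights_weak H₀ (fun σ => mat ρ (γ q σ)) M hM m (by
      intro σ hσ
      have e1 := hMσ σ (γ q σ) (hγτ q σ hσ)
      have e2 : dg σ m = Matrix.diagonal fun i =>
          algebraMap ℚ_[ℓ] ℂ_[ℓ] ((kq ℓ σ : ℚ_[ℓ]) ^ (-m i)) := by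
        unfold dg kc
        congr 1
        funext i
        rw [Units.val_zpow_eq_zpow_val]
      rw [e2]
      exact e1) (bm W) L hL
      (fun σ => LinearMap.toMatrix (finBasis ℚ_[ℓ] W) (finBasis ℚ_[ℓ] W) (res ρ W hW (γ q σ)))
      (fun σ _ => bm_rel ρ W hW (γ q σ))
    refine ⟨f, y, hf, hy, fun σ hσ => ?_⟩
    rw [hyσ σ hσ, coe_dt, LinearMap.det_toMatrix]
  choose f y hf hy hyσ using key
  set S : ℤ := ∑ q, ∑ i, m (f q i) with hS
  set θ : GF ℚ →* ℚ_[ℓ]ˣ := MonoidHom.transfer ((dt ρ W hW).comp (cc F)) with hθ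
  have hψc : Continuous (dt ρ W hW) := continuous_dt ℓ ρ hρ W hW
  have hθc : Continuous θ := continuous_transfer (isOpen_core F) _ (hψc.comp (continuous_cc F))
  set ω : GF ℚ →* ℚ_[ℓ]ˣ := θ * (zpowGroupHom S).comp (chiE ℓ ℚ_[ℓ]) with hω
  have hωg : ∀ g, ω g = θ g * chiE ℓ ℚ_[ℓ] g ^ S := fun g => rfl
  have hωc : Continuous ω := by
    have e1 : Continuous fun g => θ g * chiE ℓ ℚ_[ℓ] g ^ S :=
      hθc.mul (continuous_chiE.zpow S)
    exact e1
  have hx0 : ∏ q, y q ≠ 0 := Finset.prod_ne_zero_iff.2 fun q _ => hy q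
  obtain ⟨N, hN, hNg⟩ := char_trivial ω hωc ι res' hres H₀ hx0 (by
    intro σ hσ
    have hσ' : res' σ ∈ (HH F).normalCore := hσ
    rw [map_prod, Finset.prod_congr rfl fun q _ => hyσ q σ hσ, Finset.prod_mul_distrib,
      Finset.prod_mul_distrib]
    congr 1
    rw [hωg, Units.val_mul, map_mul, mul_comm (al ℓ _), ← kc_sum, ← hS]
    congr 1
    · rw [chiE_res (hres σ)]
      rfl
    · rw [← map_prod, hθ, transfer_core _ hσ', ← Units.coe_prod]
      congr 2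
      refine Finset.prod_congr rfl fun q _ => ?_
      have e1 : γ q σ = cc F ⟨q.out⁻¹ * res' σ * q.out, core_conj hσ' q.out⟩ := dif_pos hσ'
      rw [e1]
      rfl)
  refine ⟨S, N, hN, fun g => ?_⟩
  have e1 := hNg g
  rw [hωg, mul_pow] at e1
  rw [_root_.zpow_neg, _root_.zpow_mul, _root_.zpow_natCast]
  exact eq_inv_of_mul_eq_one_left e1

end Pool.Agent.V8H84.WM
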