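import Mathlib
import Pool.Agent.V8H91.MW.Jordan
import Pool.Agent.W539.DI.Form

/-!
# Frobenius, the monodromy operator and determinants: linear algebra over the complex numbers
-/

set_option autoImplicit false
set_option linter.unusedSectionVars false

namespace Pool.Agent.V8H84.WM

open Module Pool.Agent.V8H91.MW

/-- the numbers of weight `u - m + w` -/
def Sq (q : ℕ) (w : ℤ) (m : ℕ) (u : ℤ) : Set ℂ := {μ | ‖μ‖ ^ 2 = (q : ℝ) ^ (u - m + w)}

theorem zpow_inj {q : ℕ} (hq : 1 < q) {a b : ℤ} (h : (q : ℝ) ^ a = (q : ℝ) ^ b) : a = b := by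
  have hq' : (1 : ℝ) < q := by exact_mod_cast hq
  exact zpow_right_injective₀ (by linarith) hq'.ne' h

variable {V : Type*} [AddCommGroup V] [Module ℂ V] [FiniteDimensional ℂ V]
  {f N : Module.End ℂ V} {q : ℕ} {w : ℤ}

/-- the dimension of a sum of generalized eigenspaces -/
theorem finrank_sp (f : Module.End ℂ V) (A : Set ℂ) [DecidablePred (· ∈ A)] :
    finrank ℂ (sp f A) = Multiset.card (f.charpoly.roots.filter (· ∈ A)) := by
  classical
  set R := f.charpoly.roots with hR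
  have h1 : sp f A = ⨆ μ ∈ (R.filter (· ∈ A)).toFinset, f.maxGenEigenspace μ := by
    apply le_antisymm
    · refine iSup₂_le fun μ hμ => ?_
      by_cases hμR : μ ∈ R
      · exact le_iSup₂_of_le μ (by simpa using ⟨hμR, hμ⟩) le_rfl
      · have h2 : finrank ℂ (f.maxGenEigenspace μ) = 0 := by
          rw [LinearMap.finrank_maxGenEigenspace_eq, ← Polynomial.count_roots]
          exact Multiset.count_eq_zero.2 hμR
        rw [Submodule.finrank_eq_zero.1 h2]
        exact bot_le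
    · refine iSup₂_le fun μ hμ => ?_
      have h3 : μ ∈ R.filter (· ∈ A) := Multiset.mem_toFinset.1 hμ
      exact gen_le_sp (Multiset.mem_filter.1 h3).2
  rw [h1]
  refine (Pool.Agent.W539.DI.finrank_iSup_finset (fun μ => f.maxGenEigenspace μ)
    (Module.End.independent_maxGenEigenspace f) _).trans ?_
  rw [← Multiset.toFinset_sum_count_eq]
  refine Finset.sum_congr rfl fun μ hμ => ?_
  have h3 : μ ∈ R.filter (· ∈ A) := Multiset.mem_toFinset.1 hμ
  rw [LinearMap.finrank_maxGenEigenspace_eq, ← Polynomial.count_roots,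
    Multiset.count_filter_of_pos (Multiset.mem_filter.1 h3).2]

/-- the hypotheses on Frobenius and the monodromy operator -/
structure Loc (f N : Module.End ℂ V) (q : ℕ) : Prop where
  q1 : 1 < q
  comm : ∀ x : V, N (f x) = (q : ℂ) • f (N x)
  ev : ∀ (μ : ℂ) (x : V), x ≠ 0 → f x = μ • x → ∃ u : ℤ, ‖μ‖ ^ 2 = (q : ℝ) ^ u

/-- the monodromy-weight property -/
def MW (f N : Module.End ℂ V) (q : ℕ) (w : ℤ) : Prop :=
  ∀ j : ℕ, 1 ≤ j → ∀ μ : ℂ, ‖μ‖ ^ 2 = (q : ℝ) ^ (w + j) → ∀ x : V, x ≠ 0 → f x = μ • x →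
    (N ^ j) x ≠ 0

theorem Loc.root (h : Loc f N q) {μ : ℂ} (hμ : μ ∈ f.charpoly.roots) :
    ∃ u : ℤ, ‖μ‖ ^ 2 = (q : ℝ) ^ u := by
  have h1 : Module.End.HasEigenvalue f μ := by
    rw [Module.End.hasEigenvalue_iff_isRoot_charpoly]
    exact (Polynomial.mem_roots'.1 hμ).2
  obtain ⟨x, hx⟩ := h1.exists_hasEigenvector
  exact h.ev μ x hx.2 hx.apply_eq_smul

/-- the weights are bounded -/
theorem Loc.bound (h : Loc f N q) (w : ℤ) : ∃ m : ℕ, ∀ m', m ≤ m' → ∀ μ ∈ f.charpoly.roots,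
    ∀ u : ℤ, ‖μ‖ ^ 2 = (q : ℝ) ^ u → w - m' ≤ u ∧ u ≤ w + m' := by
  classical
  have h1 : ∀ μ : ℂ, ∃ b : ℕ, ∀ u : ℤ, ‖μ‖ ^ 2 = (q : ℝ) ^ u → (u - w).natAbs ≤ b := by
    intro μ
    by_cases hμ : ∃ u : ℤ, ‖μ‖ ^ 2 = (q : ℝ) ^ u
    · obtain ⟨u, hu⟩ := hμ
      refine ⟨(u - w).natAbs, fun u' hu' => ?_⟩
      rw [zpow_inj h.q1 (hu.symm.trans hu')]
    · exact ⟨0, fun u hu => absurd ⟨u, hu⟩ hμ⟩
  choose b hb using h1
  refine ⟨∑ μ ∈ f.charpoly.roots.toFinset, b μ, fun m' hm' μ hμ u hu => ?_⟩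
  have h2 := hb μ u hu
  have h3 : b μ ≤ ∑ μ ∈ f.charpoly.roots.toFinset, b μ :=
    Finset.single_le_sum (fun i _ => Nat.zero_le _) (Multiset.mem_toFinset.2 hμ)
  omega

theorem Loc.wt (h : Loc f N q) {m : ℕ} (hm : ∀ μ ∈ f.charpoly.roots,
    ∀ u : ℤ, ‖μ‖ ^ 2 = (q : ℝ) ^ u → w - m ≤ u ∧ u ≤ w + m) :
    Wt f N (q : ℂ) (Sq q w m) m := by
  have hq0 : (q : ℝ) ≠ 0 := by
    have := h.q1
    positivity
  have hqc : (q : ℂ) ≠ 0 := by exact_mod_cast hq0
  refine ⟨hqc, h.comm, ?_, ?_, ?_⟩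
  · intro μ a b ha hb
    have h1 := zpow_inj h.q1 (ha.symm.trans hb)
    omega
  · intro μ u
    have h1 : ‖(q : ℂ)⁻¹ * μ‖ ^ 2 = (q : ℝ) ^ (-2 : ℤ) * ‖μ‖ ^ 2 := by
      rw [norm_mul, norm_inv, Complex.norm_natCast, mul_pow, inv_pow, zpow_neg]
      norm_cast
    show ‖μ‖ ^ 2 = (q : ℝ) ^ (u - m + w) ↔ ‖(q : ℂ)⁻¹ * μ‖ ^ 2 = (q : ℝ) ^ (u - 2 - m + w)
    have h2 : (u - 2 - m + w : ℤ) = -2 + (u - m + w) := by ring
    rw [h1, h2, zpow_add₀ hq0 (-2) (u - m + w)]
    exact (mul_right_inj' (zpow_ne_zero _ hq0)).symm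
  · intro μ x hx hfx
    obtain ⟨u, hu⟩ := h.ev μ x hx hfx
    have h1 : μ ∈ f.charpoly.roots := by
      rw [Polynomial.mem_roots (LinearMap.charpoly_monic f).ne_zero,
        ← Module.End.hasEigenvalue_iff_isRoot_charpoly]
      exact Module.End.hasEigenvalue_of_hasEigenvector ⟨Module.End.mem_eigenspace_iff.2 hfx, hx⟩
    obtain ⟨h2, h3⟩ := hm μ h1 u hu
    refine ⟨u - w + m, by omega, by omega, ?_⟩
    show ‖μ‖ ^ 2 = (q : ℝ) ^ (u - w + m - m + w)
    rw [hu]
    congr 1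
    ring

theorem MW.lef (h : MW f N q w) (m : ℕ) : Lef f N (Sq q w m) m := by
  intro j hj μ hμ x hx hfx
  refine h j hj μ ?_ x hx hfx
  have h1 : ‖μ‖ ^ 2 = (q : ℝ) ^ ((m : ℤ) + j - m + w) := hμ
  rw [h1]
  congr 1
  ring

/-- the dimension of the part of weight `w + i` -/
noncomputable def a (f : Module.End ℂ V) (q : ℕ) (w : ℤ) (m : ℕ) (i : ℤ) : ℤ :=
  finrank ℂ (sp f (Sq q w m (m + i)))


theorem a_le {m : ℕ} (h : Wt f N (q : ℂ) (Sq q w m) m) (hL : Lef f N (Sq q w m) m) (j : ℕ) :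
    a f q w m j ≤ a f q w m (-j) := by
  unfold a
  have hmap : ∀ x ∈ sp f (Sq q w m (m + j)), (N ^ j) x ∈ sp f (Sq q w m (m + -j)) := by
    intro x hx
    have h1 := h.pow_sp j hx
    have h2 : (m : ℤ) + j - 2 * (j : ℤ) = m + -j := by ring
    rwa [h2] at h1
  let φ : sp f (Sq q w m (m + j)) →ₗ[ℂ] sp f (Sq q w m (m + -j)) :=
    (N ^ j).restrict hmap
  have hφ : Function.Injective φ := by
    rw [injective_iff_map_eq_zero]
    intro x hx
    have h1 : (N ^ j) (x : V) = 0 := congrArg Subtype.val hx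
    exact Subtype.ext (hL.inj h j x.2 h1)
  exact_mod_cast LinearMap.finrank_le_finrank_of_injective hφ

theorem sum_fibres (R : Multiset ℂ) (g : ℂ → ℤ) (m : ℕ) (hg : ∀ μ ∈ R, -m ≤ g μ ∧ g μ ≤ m) :
    (R.map g).sum = ∑ i ∈ Finset.Icc (-m : ℤ) m,
      i * (Multiset.card (R.filter (fun μ => g μ = i)) : ℤ) := by
  induction R using Multiset.induction_on with
  | empty => simp
  | cons μ R ih =>
    rw [Multiset.map_cons, Multiset.sum_cons, ih fun ν hν => hg ν (Multiset.mem_cons_of_mem hν)]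
    have h1 : ∀ i ∈ Finset.Icc (-m : ℤ) m,
        i * (Multiset.card ((μ ::ₘ R).filter (fun μ => g μ = i)) : ℤ) =
          (if g μ = i then i else 0) + i * (Multiset.card (R.filter (fun μ => g μ = i)) : ℤ) := by
      intro i _
      by_cases h : g μ = i
      · have h2 : (μ ::ₘ R).filter (fun μ => g μ = i) = μ ::ₘ R.filter (fun μ => g μ = i) :=
          Multiset.filter_cons_of_pos (p := fun μ => g μ = i) R h
        rw [h2, Multiset.card_cons, if_pos h]
        push_cast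
        ring
      · have h2 : (μ ::ₘ R).filter (fun μ => g μ = i) = R.filter (fun μ => g μ = i) :=
          Multiset.filter_cons_of_neg (p := fun μ => g μ = i) R h
        rw [h2, if_neg h, zero_add]
    rw [Finset.sum_congr rfl h1, Finset.sum_add_distrib, Finset.sum_ite_eq,
      if_pos (Finset.mem_Icc.2 (hg μ (Multiset.mem_cons_self μ R)))]

theorem sum_reflect (m : ℕ) (g : ℤ → ℤ) :
    ∑ i ∈ Finset.Icc (-m : ℤ) m, g (-i) = ∑ i ∈ Finset.Icc (-m : ℤ) m, g i := by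
  refine Finset.sum_nbij' (fun i => -i) (fun i => -i) ?_ ?_ ?_ ?_ ?_
  · intro i hi
    rw [Finset.mem_Icc] at hi ⊢
    omega
  · intro i hi
    rw [Finset.mem_Icc] at hi ⊢
    omega
  · intro i _
    exact neg_neg i
  · intro i _
    exact neg_neg i
  · intro i _
    rfl

/-- **The determinant of Frobenius**: its weight is at most `w` times the dimension, with equality
if and only if the weights are symmetric. -/
theorem det_weight (h : Loc f N q) (hL : MW f N q w) :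
    ∃ c : ℤ, c ≤ 0 ∧ ‖LinearMap.det f‖ ^ 2 = (q : ℝ) ^ (w * finrank ℂ V + c) ∧
      (c = 0 → ∀ m : ℕ, (∀ μ ∈ f.charpoly.roots,
        ∀ u : ℤ, ‖μ‖ ^ 2 = (q : ℝ) ^ u → w - m ≤ u ∧ u ≤ w + m) →
        ∀ i : ℤ, a f q w m i = a f q w m (-i)) := by
  classical
  have hq0 : (q : ℝ) ≠ 0 := by
    have := h.q1
    positivity
  have he : ∀ μ : ℂ, ∃ u : ℤ, μ ∈ f.charpoly.roots → ‖μ‖ ^ 2 = (q : ℝ) ^ u := by
    intro μ
    by_cases hμ : μ ∈ f.charpoly.roots
    · obtain ⟨u, hu⟩ := h.root hμ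
      exact ⟨u, fun _ => hu⟩
    · exact ⟨0, fun h => absurd h hμ⟩
  choose e he using he
  set R := f.charpoly.roots with hR
  have hsplit : f.charpoly.Splits := IsAlgClosed.splits _
  have hcard : Multiset.card R = finrank ℂ V := by
    rw [hR, ← hsplit.natDegree_eq_card_roots, LinearMap.charpoly_natDegree]
  have hdet : LinearMap.det f = R.prod := by
    rw [LinearMap.det_eq_sign_charpoly_coeff, hsplit.coeff_zero_eq_prod_roots_of_monic
      (LinearMap.charpoly_monic f), LinearMap.charpoly_natDegree, ← mul_assoc, ← pow_add,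
      ← two_mul, pow_mul, neg_one_sq, one_pow, one_mul]
  have hnorm : ∀ T : Multiset ℂ, T ≤ R → ‖T.prod‖ ^ 2 = (q : ℝ) ^ (T.map e).sum := by
    intro T
    induction T using Multiset.induction_on with
    | empty => intro _; simp
    | cons μ T ih =>
      intro hT
      rw [Multiset.prod_cons, Multiset.map_cons, Multiset.sum_cons, norm_mul, mul_pow,
        ih ((Multiset.le_cons_self T μ).trans hT), zpow_add₀ hq0,
        he μ (Multiset.mem_of_le hT (Multiset.mem_cons_self μ T))]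
  have hsum : (R.map e).sum = w * finrank ℂ V + (R.map fun μ => e μ - w).sum := by
    rw [Multiset.sum_map_sub, Multiset.map_const', Multiset.sum_replicate, hcard, nsmul_eq_mul]
    ring
  have hkey : ∀ m : ℕ, (∀ μ ∈ R, ∀ u : ℤ, ‖μ‖ ^ 2 = (q : ℝ) ^ u → w - m ≤ u ∧ u ≤ w + m) →
      2 * (R.map fun μ => e μ - w).sum =
        ∑ i ∈ Finset.Icc (-m : ℤ) m, i * (a f q w m i - a f q w m (-i)) := by
    intro m hm
    have h1 : (R.map fun μ => e μ - w).sum = ∑ i ∈ Finset.Icc (-m : ℤ) m, i * a f q w m i := by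
      rw [sum_fibres R (fun μ => e μ - w) m (fun μ hμ => by
        obtain ⟨h1, h2⟩ := hm μ hμ _ (he μ hμ)
        constructor <;> linarith)]
      refine Finset.sum_congr rfl fun i _ => ?_
      congr 1
      unfold a
      rw [finrank_sp]
      congr 2
      refine Multiset.filter_congr fun μ hμ => ?_
      have h3 : μ ∈ Sq q w m (m + i) ↔ ‖μ‖ ^ 2 = (q : ℝ) ^ ((m : ℤ) + i - m + w) := Iff.rfl
      rw [h3, he μ hμ]
      constructor
      · intro h4
        congr 1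
        linarith
      · intro h4
        have h5 := zpow_inj h.q1 h4
        linarith
    have h2 : ∑ i ∈ Finset.Icc (-m : ℤ) m, i * a f q w m (-i) =
        - ∑ i ∈ Finset.Icc (-m : ℤ) m, i * a f q w m i := by
      rw [← sum_reflect m (fun i => i * a f q w m i), ← Finset.sum_neg_distrib]
      refine Finset.sum_congr rfl fun i _ => ?_
      ring
    have h3 : ∑ i ∈ Finset.Icc (-m : ℤ) m, i * (a f q w m i - a f q w m (-i)) =
        ∑ i ∈ Finset.Icc (-m : ℤ) m, i * a f q w m i -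
          ∑ i ∈ Finset.Icc (-m : ℤ) m, i * a f q w m (-i) := by
      rw [← Finset.sum_sub_distrib]
      refine Finset.sum_congr rfl fun i _ => ?_
      ring
    rw [h3, h2, h1]
    ring
  have hterm : ∀ m : ℕ, (∀ μ ∈ R, ∀ u : ℤ, ‖μ‖ ^ 2 = (q : ℝ) ^ u → w - m ≤ u ∧ u ≤ w + m) →
      ∀ i ∈ Finset.Icc (-m : ℤ) m, i * (a f q w m i - a f q w m (-i)) ≤ 0 := by
    intro m hm i _
    have hW := h.wt hm
    rcases le_total 0 i with hi | hi
    · obtain ⟨j, rfl⟩ := Int.eq_ofNat_of_zero_le hi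
      have h1 := a_le hW (hL.lef m) j
      nlinarith
    · obtain ⟨j, hj⟩ := Int.eq_ofNat_of_zero_le (neg_nonneg.2 hi)
      have h1 := a_le hW (hL.lef m) j
      rw [hj]
      have h2 : i = -j := by omega
      rw [h2]
      nlinarith
  obtain ⟨m₀, hm₀⟩ := h.bound w
  refine ⟨(R.map fun μ => e μ - w).sum, ?_, ?_, ?_⟩
  · have h1 := hkey m₀ (hm₀ m₀ le_rfl)
    have h2 := Finset.sum_nonpos (hterm m₀ (hm₀ m₀ le_rfl))
    linarith
  · rw [hdet, hnorm R le_rfl, hsum]
  · intro hc m hm i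
    have h1 := hkey m hm
    rw [hc, mul_zero, eq_comm] at h1
    have h2 := (Finset.sum_eq_zero_iff_of_nonpos (hterm m hm)).1 h1
    by_cases hi : i ∈ Finset.Icc (-m : ℤ) m
    · rcases eq_or_ne i 0 with rfl | hi0
      · rw [neg_zero]
      · rcases mul_eq_zero.1 (h2 i hi) with h3 | h3
        · exact absurd h3 hi0
        · linarith
    · have h3 : ∀ i : ℤ, i ∉ Finset.Icc (-m : ℤ) m → a f q w m i = 0 := by
        intro i hi
        unfold a
        rw [finrank_sp, Nat.cast_eq_zero, Multiset.card_eq_zero, Multiset.filter_eq_nil]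
        intro μ hμ hmem
        have h4 : ‖μ‖ ^ 2 = (q : ℝ) ^ ((m : ℤ) + i - m + w) := hmem
        have h5 := hm μ hμ _ h4
        apply hi
        rw [Finset.mem_Icc]
        omega
      rw [h3 i hi, h3 (-i) (by rw [Finset.mem_Icc] at hi ⊢; omega)]

end Pool.Agent.V8H84.WM
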