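import Pool.Agent.V8H84.WM.Block

/-!
# Primitive parts of subobjects
-/

set_option autoImplicit false
set_option linter.unusedSectionVars false

namespace Pool.Agent.V8H84.WM

open Module Pool.Agent.V8H91.MW

section sums

theorem card_fibres (R : Multiset ℂ) (g : ℂ → ℤ) (m : ℕ) (hg : ∀ μ ∈ R, -m ≤ g μ ∧ g μ ≤ m) :
    (Multiset.card R : ℤ) = ∑ i ∈ Finset.Icc (-m : ℤ) m,
      (Multiset.card (R.filter (fun μ => g μ = i)) : ℤ) := by
  induction R using Multiset.induction_on with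
  | empty => simp
  | cons μ R ih =>
    rw [Multiset.card_cons]
    push_cast
    rw [ih fun ν hν => hg ν (Multiset.mem_cons_of_mem hν)]
    have h1 : ∀ i ∈ Finset.Icc (-m : ℤ) m,
        (Multiset.card ((μ ::ₘ R).filter (fun μ => g μ = i)) : ℤ) =
          (if g μ = i then 1 else 0) + (Multiset.card (R.filter (fun μ => g μ = i)) : ℤ) := by
      intro i _
      by_cases h : g μ = i
      · have h2 : (μ ::ₘ R).filter (fun μ => g μ = i) = μ ::ₘ R.filter (fun μ => g μ = i) :=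
          Multiset.filter_cons_of_pos (p := fun μ => g μ = i) R h
        rw [h2, Multiset.card_cons, if_pos h]
        push_cast
        ring
      · have h2 : (μ ::ₘ R).filter (fun μ => g μ = i) = R.filter (fun μ => g μ = i) :=
          Multiset.filter_cons_of_neg (p := fun μ => g μ = i) R h
        rw [h2, if_neg h, zero_add]
    rw [Finset.sum_congr rfl h1, Finset.sum_add_distrib, Finset.sum_ite_eq,
      if_pos (Finset.mem_Icc.2 (hg μ (Multiset.mem_cons_self μ R)))]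
    ring

theorem sum_Icc_symm (A : ℤ → ℤ) (hA : ∀ i, A i = A (-i)) (m : ℕ) :
    ∑ i ∈ Finset.Icc (-m : ℤ) m, A i = A 0 + 2 * ∑ i ∈ Finset.range m, A (i + 1) := by
  induction m with
  | zero => simp
  | succ m ih =>
    have h1 : Finset.Icc (-((m + 1 : ℕ) : ℤ)) ((m + 1 : ℕ) : ℤ) =
        insert (-((m : ℤ) + 1)) (insert ((m : ℤ) + 1) (Finset.Icc (-m : ℤ) m)) := by
      ext i
      simp only [Finset.mem_Icc, Finset.mem_insert]
      push_cast
      omega
    rw [h1, Finset.sum_insert (by simp only [Finset.mem_Icc, Finset.mem_insert]; omega),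
      Finset.sum_insert (by simp only [Finset.mem_Icc]; omega), ih, Finset.sum_range_succ,
      ← hA (m + 1)]
    ring

theorem telescope (A : ℤ → ℤ) (M : ℕ) :
    ∑ j ∈ Finset.range (M + 1), ((j : ℤ) + 1) * (A j - A (j + 2)) =
      A 0 + 2 * ∑ i ∈ Finset.range M, A (i + 1) - M * A (M + 1) - (M + 1) * A (M + 2) := by
  induction M with
  | zero => simp
  | succ M ih =>
    rw [Finset.sum_range_succ, ih, Finset.sum_range_succ]
    push_cast
    have h1 : (M : ℤ) + 1 + 2 = M + 3 := by ring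
    have h2 : (M : ℤ) + 1 + 1 = M + 2 := by ring
    rw [h1, h2]
    ring

end sums

section complex

variable {V : Type*} [AddCommGroup V] [Module ℂ V] [FiniteDimensional ℂ V]
  {V' : Type*} [AddCommGroup V'] [Module ℂ V'] [FiniteDimensional ℂ V']
  {f N : Module.End ℂ V} {f' N' : Module.End ℂ V'} {q : ℕ} {w : ℤ} {m : ℕ}

/-- the primitive part of weight `w + j` -/
noncomputable def PP (f N : Module.End ℂ V) (q : ℕ) (w : ℤ) (m j : ℕ) : Submodule ℂ V :=
  LinearMap.ker (N ^ (j + 1)) ⊓ sp f (Sq q w m (m + j))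

/-- surjectivity of the powers of the monodromy operator -/
theorem surj_of_symm (h : Wt f N (q : ℂ) (Sq q w m) m) (hL : Lef f N (Sq q w m) m)
    (hs : ∀ i : ℤ, a f q w m i = a f q w m (-i)) (j : ℕ) {y : V}
    (hy : y ∈ sp f (Sq q w m (m + -(j : ℤ)))) : ∃ x ∈ sp f (Sq q w m (m + j)), (N ^ j) x = y := by
  have hmap : ∀ x ∈ sp f (Sq q w m (m + j)), (N ^ j) x ∈ sp f (Sq q w m (m + -(j : ℤ))) := by
    intro x hx
    have h1 := h.pow_sp j hx
    have h2 : (m : ℤ) + j - 2 * (j : ℤ) = m + -j := by ring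
    rwa [h2] at h1
  have hfin : finrank ℂ (sp f (Sq q w m (m + j))) =
      finrank ℂ (sp f (Sq q w m (m + -(j : ℤ)))) := by
    have h1 := hs j
    unfold a at h1
    exact_mod_cast h1
  have hinj : Function.Injective ((N ^ j).restrict hmap) := by
    rw [injective_iff_map_eq_zero]
    intro x hx
    exact Subtype.ext (hL.inj h j x.2 (congrArg Subtype.val hx))
  have hsurj := (LinearMap.injective_iff_surjective_of_finrank_eq_finrank hfin).1 hinj
  obtain ⟨x, hx⟩ := hsurj ⟨y, hy⟩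
  exact ⟨x, x.2, congrArg Subtype.val hx⟩

/-- the dimension of the primitive part -/
theorem finrank_PP (h : Wt f N (q : ℂ) (Sq q w m) m) (hL : Lef f N (Sq q w m) m)
    (hs : ∀ i : ℤ, a f q w m i = a f q w m (-i)) (j : ℕ) :
    (finrank ℂ (PP f N q w m j) : ℤ) = a f q w m j - a f q w m (j + 2) := by
  have hmap : ∀ x ∈ sp f (Sq q w m (m + j)),
      (N ^ (j + 1)) x ∈ sp f (Sq q w m (m + -((j + 2 : ℕ) : ℤ))) := by
    intro x hx
    have h1 := h.pow_sp (j + 1) hx
    have h2 : (m : ℤ) + j - 2 * ((j + 1 : ℕ) : ℤ) = m + -((j + 2 : ℕ) : ℤ) := by push_cast; ring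
    rwa [h2] at h1
  have hsurj : Function.Surjective ((N ^ (j + 1)).restrict hmap) := by
    rintro ⟨y, hy⟩
    obtain ⟨x, hx, hxy⟩ := surj_of_symm h hL hs (j + 2) hy
    refine ⟨⟨N x, ?_⟩, Subtype.ext ?_⟩
    · have h1 := h.N_sp hx
      have h2 : (m : ℤ) + ((j + 2 : ℕ) : ℤ) - 2 = m + j := by push_cast; ring
      rwa [h2] at h1
    · show (N ^ (j + 1)) (N x) = y
      rw [← Module.End.mul_apply, ← pow_succ, hxy]
  have h1 := LinearMap.finrank_range_add_finrank_ker ((N ^ (j + 1)).restrict hmap)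
  rw [LinearMap.range_eq_top.2 hsurj, finrank_top] at h1
  have h2 : (LinearMap.ker ((N ^ (j + 1)).restrict hmap)).map
      (sp f (Sq q w m (m + j))).subtype = PP f N q w m j := by
    ext x
    constructor
    · rintro ⟨y, hy, rfl⟩
      exact ⟨congrArg Subtype.val hy, y.2⟩
    · rintro ⟨hx, hx'⟩
      exact ⟨⟨x, hx'⟩, Subtype.ext hx, rfl⟩
  have h3 : finrank ℂ (LinearMap.ker ((N ^ (j + 1)).restrict hmap)) =
      finrank ℂ (PP f N q w m j) := by
    rw [← h2]
    exact LinearEquiv.finrank_eq (Submodule.equivMapOfInjective _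
      (sp f (Sq q w m (m + j))).injective_subtype _)
  have h4 := hs (j + 2)
  unfold a at h4 ⊢
  rw [h4, ← h3]
  have h5 : (m : ℤ) + -((j : ℤ) + 2) = m + -((j + 2 : ℕ) : ℤ) := by push_cast; ring
  rw [h5]
  have h6 : (finrank ℂ (sp f (Sq q w m (m + -((j + 2 : ℕ) : ℤ)))) : ℤ) +
      finrank ℂ (LinearMap.ker ((N ^ (j + 1)).restrict hmap)) =
        finrank ℂ (sp f (Sq q w m (m + j))) := by exact_mod_cast h1
  linarith

/-- the dimension is the sum of the dimensions of the parts of given weight -/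
theorem sum_a (h : Loc f N q) (hm : ∀ μ ∈ f.charpoly.roots,
    ∀ u : ℤ, ‖μ‖ ^ 2 = (q : ℝ) ^ u → w - m ≤ u ∧ u ≤ w + m) :
    (finrank ℂ V : ℤ) = ∑ i ∈ Finset.Icc (-m : ℤ) m, a f q w m i := by
  classical
  have he : ∀ μ : ℂ, ∃ u : ℤ, μ ∈ f.charpoly.roots → ‖μ‖ ^ 2 = (q : ℝ) ^ u := by
    intro μ
    by_cases hμ : μ ∈ f.charpoly.roots
    · obtain ⟨u, hu⟩ := h.root hμ
      exact ⟨u, fun _ => hu⟩
    · exact ⟨0, fun h => absurd h hμ⟩
  choose e he using he
  have hsplit : f.charpoly.Splits := IsAlgClosed.splits _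
  have hcard : Multiset.card f.charpoly.roots = finrank ℂ V := by
    rw [← hsplit.natDegree_eq_card_roots, LinearMap.charpoly_natDegree]
  rw [← hcard, card_fibres f.charpoly.roots (fun μ => e μ - w) m (fun μ hμ => by
    obtain ⟨h1, h2⟩ := hm μ hμ _ (he μ hμ)
    constructor <;> linarith)]
  refine Finset.sum_congr rfl fun i _ => ?_
  unfold a
  rw [finrank_sp]
  congr 2
  refine Multiset.filter_congr fun μ hμ => ?_
  have h3 : μ ∈ Sq q w m (m + i) ↔ ‖μ‖ ^ 2 = (q : ℝ) ^ ((m : ℤ) + i - m + w) := Iff.rfl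
  rw [h3, he μ hμ]
  constructor
  · intro h4
    congr 1
    linarith
  · intro h4
    have h5 := zpow_inj h.q1 h4
    linarith

theorem a_zero (hm : ∀ μ ∈ f.charpoly.roots,
    ∀ u : ℤ, ‖μ‖ ^ 2 = (q : ℝ) ^ u → w - m ≤ u ∧ u ≤ w + m) {i : ℤ} (hi : (m : ℤ) < i) :
    a f q w m i = 0 := by
  classical
  unfold a
  rw [finrank_sp, Nat.cast_eq_zero, Multiset.card_eq_zero, Multiset.filter_eq_nil]
  intro μ hμ hmem
  have h4 : ‖μ‖ ^ 2 = (q : ℝ) ^ ((m : ℤ) + i - m + w) := hmem
  have h5 := hm μ hμ _ h4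
  omega

/-- **The dimension is the sum of the sizes of the blocks.** -/
theorem sum_PP (h : Loc f N q) (hL : MW f N q w) (hm : ∀ μ ∈ f.charpoly.roots,
    ∀ u : ℤ, ‖μ‖ ^ 2 = (q : ℝ) ^ u → w - m ≤ u ∧ u ≤ w + m)
    (hs : ∀ i : ℤ, a f q w m i = a f q w m (-i)) :
    ∑ j ∈ Finset.range (m + 1), (j + 1) * finrank ℂ (PP f N q w m j) = finrank ℂ V := by
  have hW := h.wt hm
  have h1 : ((∑ j ∈ Finset.range (m + 1), (j + 1) * finrank ℂ (PP f N q w m j) : ℕ) : ℤ) =
      ∑ j ∈ Finset.range (m + 1), ((j : ℤ) + 1) * (a f q w m j - a f q w m (j + 2)) := by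
    push_cast
    refine Finset.sum_congr rfl fun j _ => ?_
    rw [finrank_PP hW (hL.lef m) hs]
  have h2 : (finrank ℂ V : ℤ) = _ := sum_a h hm
  rw [sum_Icc_symm _ hs] at h2
  rw [telescope, a_zero hm (i := (m : ℤ) + 1) (by omega),
    a_zero hm (i := (m : ℤ) + 2) (by omega), mul_zero, mul_zero,
    sub_zero, sub_zero, ← h2] at h1
  exact_mod_cast h1

/-- the primitive part and the Jordan blocks -/
theorem PP_le_block (h : Wt f N (q : ℂ) (Sq q w m) m) (hL : Lef f N (Sq q w m) m) (j : ℕ) :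
    finrank ℂ (PP f N q w m j) + finrank ℂ (LinearMap.ker (N ^ j)) +
      finrank ℂ (LinearMap.ker (N ^ (j + 2))) ≤ 2 * finrank ℂ (LinearMap.ker (N ^ (j + 1))) := by
  have h1 := finrank_KK N (k := j + 1) (by omega)
  have h2 := Submodule.finrank_sup_add_finrank_inf_eq (KK N (j + 1)) (PP f N q w m j)
  have h3 : KK N (j + 1) ⊓ PP f N q w m j = ⊥ := by
    rw [eq_bot_iff]
    rintro z ⟨hz, hz'⟩
    exact KK_sp h hL hz hz'.2
  rw [h3, finrank_bot, add_zero] at h2
  have h4' : KK N (j + 1) ⊔ PP f N q w m j ≤ LinearMap.ker (N ^ (j + 1)) :=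
    sup_le (KK_le (N := N) (k := j + 1) (by omega)) inf_le_left
  have h4 := Submodule.finrank_mono h4'
  have h5 : j + 1 - 1 = j := by omega
  rw [h5] at h1
  have h6 : j + 1 + 1 = j + 2 := by omega
  rw [h6] at h1
  omega

/-- an isotropic subspace of the primitive part -/
theorem iso_PP {B : V →ₗ[ℂ] V →ₗ[ℂ] ℂ} {d : ℂ} (h : Wt f N (q : ℂ) (Sq q w m) m)
    (hd : Dual f N d (Sq q w m) m B) (hL : Lef f N (Sq q w m) m) (j : ℕ)
    (X : Submodule ℂ V) (hX : X ≤ PP f N q w m j)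
    (hiso : ∀ x ∈ X, ∀ y ∈ X, B ((N ^ j) x) y = 0) :
    2 * finrank ℂ X ≤ finrank ℂ (PP f N q w m j) := by
  -- the form on the primitive part
  have hnd : ∀ x ∈ PP f N q w m j, (∀ y ∈ PP f N q w m j, B ((N ^ j) x) y = 0) → x = 0 := by
    rintro x ⟨hxN, hx⟩ hxy
    have hxN' : (N ^ (j + 1)) x = 0 := hxN
    refine hL.inj h j hx ?_
    have h1 : (N ^ j) x ∈ sp f (Sq q w m (m - j)) := by
      have h2 := h.pow_sp j hx
      have h3 : (m : ℤ) + j - 2 * (j : ℤ) = m - j := by ring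
      rwa [h3] at h2
    refine hd.nondeg h1 fun y hy => ?_
    have h4 : 2 * (m : ℤ) - (m - j) = m + j := by ring
    rw [h4] at hy
    have h5 : (N ^ (j + 1)) y ∈ sp f (Sq q w m (m - ((j + 2 : ℕ) : ℤ))) := by
      have h6 := h.pow_sp (j + 1) hy
      have h7 : (m : ℤ) + j - 2 * ((j + 1 : ℕ) : ℤ) = m - ((j + 2 : ℕ) : ℤ) := by push_cast; ring
      rwa [h7] at h6
    obtain ⟨y', hy', hyy⟩ := hL.surj h hd (j + 2) h5
    have h9 : N y' ∈ sp f (Sq q w m (m + j)) := by
      have h6 := h.N_sp hy'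
      have h7 : (m : ℤ) + ((j + 2 : ℕ) : ℤ) - 2 = m + j := by push_cast; ring
      rwa [h7] at h6
    have h8 : y - N y' ∈ PP f N q w m j := by
      refine ⟨?_, Submodule.sub_mem _ hy h9⟩
      rw [SetLike.mem_coe, LinearMap.mem_ker, map_sub, ← hyy,
        ← Module.End.mul_apply (N ^ (j + 1)) N, ← pow_succ, sub_self]
    have h10 := hxy _ h8
    have h11 := hd.BN ((N ^ j) x) y'
    rw [← Module.End.mul_apply N, ← pow_succ', hxN', map_zero, LinearMap.zero_apply,
      zero_add] at h11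
    rw [map_sub, h11, sub_zero] at h10
    exact h10
  -- the map to the dual of the quotient
  let P := PP f N q w m j
  let X' : Submodule ℂ P := X.comap P.subtype
  have hX' : finrank ℂ X' = finrank ℂ X := by
    have h1 : X'.map P.subtype = X := by
      rw [Submodule.map_comap_subtype, inf_eq_right]
      exact hX
    rw [← h1]
    exact LinearEquiv.finrank_eq (Submodule.equivMapOfInjective _ P.injective_subtype _)
  let β : X →ₗ[ℂ] Module.Dual ℂ P := (B.comp (N ^ j)).compl₁₂ X.subtype P.subtype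
  have hβ : ∀ x : X, ∀ y : P, β x y = B ((N ^ j) (x : V)) y := fun _ _ => rfl
  have hβinj : Function.Injective β := by
    rw [injective_iff_map_eq_zero]
    intro x hx
    refine Subtype.ext (hnd x (hX x.2) fun y hy => ?_)
    have h1 := congrArg (fun F : Module.Dual ℂ P => F ⟨y, hy⟩) hx
    exact h1
  have hβr : LinearMap.range β ≤ X'.dualAnnihilator := by
    rintro _ ⟨x, rfl⟩
    rw [Submodule.mem_dualAnnihilator]
    intro y hy
    exact hiso x x.2 y hy
  have h2 := LinearMap.finrank_range_of_inj hβinj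
  have h3 := Submodule.finrank_mono hβr
  have h4 := Subspace.finrank_add_finrank_dualAnnihilator_eq X'
  have h5 : finrank ℂ P = finrank ℂ (PP f N q w m j) := rfl
  omega

theorem sub_sp (ι : V' →ₗ[ℂ] V) (hf : ∀ x, ι (f' x) = f (ι x)) {A : Set ℂ} {x : V'}
    (hx : x ∈ sp f' A) : ι x ∈ sp f A := by
  refine sp_induction (p := fun x => ι x ∈ sp f A) hx (fun μ hμ x hx => ?_)
    (by rw [map_zero]; exact Submodule.zero_mem _)
    (fun x y hx hy => by rw [map_add]; exact Submodule.add_mem _ hx hy)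
  refine gen_le_sp hμ ?_
  rw [Module.End.mem_maxGenEigenspace] at hx ⊢
  obtain ⟨k, hk⟩ := hx
  refine ⟨k, ?_⟩
  have key : ∀ (k : ℕ) (x : V'), ((f - μ • (1 : Module.End ℂ V)) ^ k) (ι x) =
      ι (((f' - μ • (1 : Module.End ℂ V')) ^ k) x) := by
    intro k
    induction k with
    | zero => intro x; rfl
    | succ k ih =>
      intro x
      have h1 : (f - μ • (1 : Module.End ℂ V)) (ι x) =
          ι ((f' - μ • (1 : Module.End ℂ V')) x) := by
        rw [LinearMap.sub_apply, LinearMap.sub_apply, LinearMap.smul_apply, LinearMap.smul_apply,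
          Module.End.one_apply, Module.End.one_apply, map_sub, map_smul, hf]
      rw [pow_succ, Module.End.mul_apply, h1, ih, pow_succ (f' - μ • 1), Module.End.mul_apply]
  rw [key, hk, map_zero]

theorem sub_PP (ι : V' →ₗ[ℂ] V) (hf : ∀ x, ι (f' x) = f (ι x)) (hN : ∀ x, ι (N' x) = N (ι x))
    (j : ℕ) : (PP f' N' q w m j).map ι ≤ PP f N q w m j := by
  rintro _ ⟨x, ⟨hx, hx'⟩, rfl⟩
  have h1 : (N' ^ (j + 1)) x = 0 := hx
  refine ⟨?_, sub_sp ι hf hx'⟩
  rw [SetLike.mem_coe, LinearMap.mem_ker, ← pow_sub ι hN, h1, map_zero]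

/-- **Jordan blocks of subobjects.** A subobject with symmetric weights determines numbers `s i`
of Jordan blocks of size `i`; if it is isotropic, these are at most half of the blocks. -/
theorem sub_blocks (h : Loc f N q) (hL : MW f N q w) {n : ℕ} (hnil : N ^ n = 0)
    (ι : V' →ₗ[ℂ] V) (hι : Function.Injective ι)
    (hf : ∀ x, ι (f' x) = f (ι x)) (hN : ∀ x, ι (N' x) = N (ι x))
    (hsym : ∀ m : ℕ, (∀ μ ∈ f'.charpoly.roots,
        ∀ u : ℤ, ‖μ‖ ^ 2 = (q : ℝ) ^ u → w - m ≤ u ∧ u ≤ w + m) →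
        ∀ i : ℤ, a f' q w m i = a f' q w m (-i)) :
    ∃ s : ℕ → ℕ, (∀ i, 1 ≤ i → s i + finrank ℂ (LinearMap.ker (N ^ (i - 1))) +
        finrank ℂ (LinearMap.ker (N ^ (i + 1))) ≤ 2 * finrank ℂ (LinearMap.ker (N ^ i))) ∧
      ∑ i ∈ Finset.range (n + 1), i * s i = finrank ℂ V' ∧
      ∀ B : V →ₗ[ℂ] V →ₗ[ℂ] ℂ, (∀ x y, B (f x) (f y) = (q : ℂ) ^ w * B x y) →
        (∀ x y, B (N x) y + B x (N y) = 0) → (∀ x, (∀ y, B x y = 0) → x = 0) →
        (∀ x y, B (ι x) (ι y) = 0) →
        ∀ i, 1 ≤ i → 2 * s i + finrank ℂ (LinearMap.ker (N ^ (i - 1))) +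
          finrank ℂ (LinearMap.ker (N ^ (i + 1))) ≤ 2 * finrank ℂ (LinearMap.ker (N ^ i)) := by
  classical
  have h' : Loc f' N' q := h.sub ι hι hf hN
  have hL' : MW f' N' q w := hL.sub ι hι hf hN
  obtain ⟨m₁, hm₁⟩ := h.bound w
  obtain ⟨m₂, hm₂⟩ := h'.bound w
  set m := max m₁ m₂ with hm
  have hmV := hm₁ m (le_max_left _ _)
  have hmV' := hm₂ m (le_max_right _ _)
  have hW := h.wt hmV
  have hs := hsym m hmV'
  have hle : ∀ j, finrank ℂ (PP f' N' q w m j) ≤ finrank ℂ (PP f N q w m j) := by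
    intro j
    have h1 := Submodule.finrank_mono (sub_PP (q := q) (w := w) (m := m) ι hf hN j)
    have h2 : finrank ℂ ((PP f' N' q w m j).map ι) = finrank ℂ (PP f' N' q w m j) :=
      (LinearEquiv.finrank_eq (Submodule.equivMapOfInjective ι hι _)).symm
    rwa [h2] at h1
  have hblk : ∀ i, 1 ≤ i → finrank ℂ (PP f N q w m (i - 1)) +
      finrank ℂ (LinearMap.ker (N ^ (i - 1))) +
        finrank ℂ (LinearMap.ker (N ^ (i + 1))) ≤ 2 * finrank ℂ (LinearMap.ker (N ^ i)) := by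
    intro i hi
    obtain ⟨j, rfl⟩ : ∃ j, i = j + 1 := ⟨i - 1, by omega⟩
    exact PP_le_block hW (hL.lef m) j
  refine ⟨fun i => finrank ℂ (PP f' N' q w m (i - 1)), ?_, ?_, ?_⟩
  · intro i hi
    have h1 := hblk i hi
    have h2 := hle (i - 1)
    simp only
    omega
  · have h1 := sum_PP h' hL' hmV' hs
    have h2 : ∑ i ∈ Finset.range (m + 1 + 1), i * finrank ℂ (PP f' N' q w m (i - 1)) =
        finrank ℂ V' := by
      rw [Finset.sum_range_succ', zero_mul, add_zero, ← h1]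
      rfl
    rw [← h2]
    -- both sums are equal to the sum over a large range
    have h3 : ∀ i, m + 1 + 1 ≤ i → finrank ℂ (PP f' N' q w m (i - 1)) = 0 := by
      intro i hi
      have h4 := a_zero (f := f') (q := q) (w := w) hmV' (i := ((i - 1 : ℕ) : ℤ)) (by omega)
      unfold a at h4
      have h5 : finrank ℂ (sp f' (Sq q w m (m + ((i - 1 : ℕ) : ℤ)))) = 0 := by exact_mod_cast h4
      have h6' : PP f' N' q w m (i - 1) ≤ sp f' (Sq q w m (m + ((i - 1 : ℕ) : ℤ))) :=
        inf_le_right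
      have h6 := Submodule.finrank_mono h6'
      omega
    have h4 : ∀ i, n + 1 ≤ i → finrank ℂ (PP f' N' q w m (i - 1)) = 0 := by
      intro i hi
      have h5 := hblk i (by omega)
      have h6 := hle (i - 1)
      have h7 : ∀ t, n ≤ t → N ^ t = 0 := by
        intro t ht
        obtain ⟨s, rfl⟩ := Nat.exists_eq_add_of_le ht
        rw [pow_add, hnil, zero_mul]
      rw [h7 (i - 1) (by omega), h7 i (by omega), h7 (i + 1) (by omega)] at h5
      omega
    have h6 : ∀ T T', T ≤ T' → (∀ i, T ≤ i → finrank ℂ (PP f' N' q w m (i - 1)) = 0) →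
        ∑ i ∈ Finset.range T, i * finrank ℂ (PP f' N' q w m (i - 1)) =
          ∑ i ∈ Finset.range T', i * finrank ℂ (PP f' N' q w m (i - 1)) := by
      intro T T' hTT hT
      apply Finset.sum_subset
      · intro i hi
        rw [Finset.mem_range] at hi ⊢
        omega
      · intro i _ hi
        rw [Finset.mem_range, not_lt] at hi
        rw [hT i hi, mul_zero]
    rw [h6 (n + 1) (max (m + 1 + 1) (n + 1)) (le_max_right _ _) h4,
      h6 (m + 1 + 1) (max (m + 1 + 1) (n + 1)) (le_max_left _ _) h3]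
  · intro B Bf BN Bnd hiso i hi
    obtain ⟨j, rfl⟩ : ∃ j, i = j + 1 := ⟨i - 1, by omega⟩
    have h1 := hblk (j + 1) hi
    have h2 := iso_PP hW (dual_inst h.q1 m B Bf BN Bnd) (hL.lef m) j
      ((PP f' N' q w m j).map ι) (sub_PP ι hf hN j) (by
      rintro _ ⟨x, -, rfl⟩ _ ⟨y, -, rfl⟩
      rw [← pow_sub ι hN]
      exact hiso _ _)
    have h3 : finrank ℂ ((PP f' N' q w m j).map ι) = finrank ℂ (PP f' N' q w m j) :=
      (LinearEquiv.finrank_eq (Submodule.equivMapOfInjective ι hι _)).symm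
    rw [h3] at h2
    have h4 : j + 1 - 1 = j := by omega
    rw [h4] at h1
    show 2 * finrank ℂ (PP f' N' q w m j) + finrank ℂ (LinearMap.ker (N ^ j)) +
      finrank ℂ (LinearMap.ker (N ^ (j + 1 + 1))) ≤ 2 * finrank ℂ (LinearMap.ker (N ^ (j + 1)))
    omega

end complex

end Pool.Agent.V8H84.WM
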