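import Pool.Agent.V8H84.WM.Place
import Pool.Agent.V8H84.WM.Prim
import Pool.Agent.V8H84.WM.Defs

/-!
# Semisimplicity from monodromy operators
-/

set_option autoImplicit false
set_option linter.unusedSectionVars false

namespace Pool.Agent.V8H84.WM

open NumberField IsDedekindDomain Pool.Agent.W569.FM Pool.Agent.W571.FM Pool.Agent.Y115.R
open Pool.Agent.Y115.T Pool.Agent.Y115.Chi Pool.Agent.Y115.CQ Module Matrix
open Pool.Agent.W292.FM Pool.Agent.V8H84.HT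

section mat

variable {K : Type*} [Field K] {n : ℕ}

/-- the matrix of an operator on a stable subspace -/
theorem exists_rep (W : Submodule K (Fin n → K)) (A : Matrix (Fin n) (Fin n) K)
    (hA : ∀ x ∈ W, A *ᵥ x ∈ W) : ∃ C : Matrix (Fin (finrank K W)) (Fin (finrank K W)) K,
      A * bm W = bm W * C := by
  let r : Module.End K W := (Matrix.mulVecLin A).restrict hA
  refine ⟨LinearMap.toMatrix (finBasis K W) (finBasis K W) r, ?_⟩
  ext a j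
  have h1 : ((r (finBasis K W j) : W) : Fin n → K) = A *ᵥ ((finBasis K W j : W) : Fin n → K) := rfl
  have h2 := (finBasis K W).sum_repr (r (finBasis K W j))
  have h3 : ((∑ i, (finBasis K W).repr (r (finBasis K W j)) i • finBasis K W i : W) :
      Fin n → K) a = (A *ᵥ ((finBasis K W j : W) : Fin n → K)) a := by rw [h2, h1]
  rw [Matrix.mul_apply, Matrix.mul_apply]
  have h4 : (A *ᵥ ((finBasis K W j : W) : Fin n → K)) a = ∑ i, A a i * bm W i j := rfl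
  rw [← h4, ← h3, Submodule.coe_sum, Finset.sum_apply]
  refine Finset.sum_congr rfl fun i _ => ?_
  rw [LinearMap.toMatrix_apply, Submodule.coe_smul, Pi.smul_apply, smul_eq_mul, mul_comm]
  rfl

theorem bm_mulVec_mem (W : Submodule K (Fin n → K)) (x : Fin (finrank K W) → K) :
    bm W *ᵥ x ∈ W := by
  have h1 : bm W *ᵥ x = ((∑ i, x i • finBasis K W i : W) : Fin n → K) := by
    funext a
    rw [Submodule.coe_sum, Finset.sum_apply, Matrix.mulVec, dotProduct]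
    refine Finset.sum_congr rfl fun i _ => ?_
    rw [Submodule.coe_smul, Pi.smul_apply, smul_eq_mul, mul_comm]
    rfl
  rw [h1]
  exact Subtype.mem _

theorem bm_iso (W : Submodule K (Fin n → K)) (J : Matrix (Fin n) (Fin n) K)
    (h : ∀ x ∈ W, ∀ y ∈ W, x ⬝ᵥ J *ᵥ y = 0) : (bm W)ᵀ * J * bm W = 0 := by
  ext i j
  have e1 := h _ (finBasis K W i).2 _ (finBasis K W j).2
  rw [Matrix.mul_assoc, Matrix.mul_apply, Matrix.zero_apply]
  rw [dotProduct] at e1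
  rw [← e1]
  refine Finset.sum_congr rfl fun a _ => ?_
  congr 1

end mat

section loc

variable {K : Type*} [Field K] {n : ℕ} (j : K →+* ℂ)

/-- the complex form of a matrix -/
noncomputable def cx {m n : ℕ} (A : Matrix (Fin m) (Fin n) K) : (Fin n → ℂ) →ₗ[ℂ] (Fin m → ℂ) :=
  Matrix.mulVecLin (A.map j)

theorem cx_apply {m n : ℕ} (A : Matrix (Fin m) (Fin n) K) (x : Fin n → ℂ) :
    cx j A x = A.map j *ᵥ x := rfl

theorem cx_mul {k m n : ℕ} (A : Matrix (Fin k) (Fin m) K) (B : Matrix (Fin m) (Fin n) K)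
    (x : Fin n → ℂ) : cx j (A * B) x = cx j A (cx j B x) := by
  rw [cx_apply, cx_apply, cx_apply, Matrix.map_mul, mulVec_mulVec]

theorem cx_pow (A : Matrix (Fin n) (Fin n) K) (i : ℕ) :
    (cx j A : Module.End ℂ (Fin n → ℂ)) ^ i = cx j (A ^ i) := by
  induction i with
  | zero =>
    apply LinearMap.ext
    intro x
    rw [pow_zero, pow_zero, cx_apply, Matrix.map_one _ (map_zero _) (map_one _), one_mulVec]
    rfl
  | succ i ih =>
    apply LinearMap.ext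
    intro x
    rw [pow_succ, Module.End.mul_apply, ih, pow_succ, cx_mul]

theorem finrank_ker_cx (A : Matrix (Fin n) (Fin n) K) :
    finrank ℂ (LinearMap.ker (cx j A)) + A.rank = n := by
  have h1 := LinearMap.finrank_range_add_finrank_ker (cx j A)
  rw [finrank_fin_fun] at h1
  have h2 : finrank ℂ (LinearMap.range (cx j A)) = A.rank := by
    rw [← rank_map j A]
    rfl
  omega

theorem blk_cx (N : Matrix (Fin n) (Fin n) K)
    (h : ∀ k : ℕ, 1 ≤ k → (N ^ (k - 1)).rank + (N ^ (k + 1)).rank - 2 * (N ^ k).rank ≤ 1) :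
    Blk (cx j N : Module.End ℂ (Fin n → ℂ)) := by
  intro k hk
  rw [cx_pow, cx_pow, cx_pow]
  have h1 := finrank_ker_cx j (N ^ k)
  have h2 := finrank_ker_cx j (N ^ (k - 1))
  have h3 := finrank_ker_cx j (N ^ (k + 1))
  have h4 := h k hk
  omega

theorem cx_injective {k : ℕ} (B : Matrix (Fin n) (Fin k) K) (L : Matrix (Fin k) (Fin n) K)
    (h : L * B = 1) : Function.Injective (cx j B) := by
  intro x y hxy
  have h1 : ∀ x, cx j L (cx j B x) = x := by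
    intro x
    rw [← cx_mul, h, cx_apply, Matrix.map_one _ (map_zero _) (map_one _), one_mulVec]
  rw [← h1 x, ← h1 y, hxy]

theorem det_cx {k : ℕ} (A : Matrix (Fin k) (Fin k) K) :
    LinearMap.det (cx j A) = j A.det := by
  have h1 : LinearMap.det (cx j A) = (A.map j).det := by
    have h2 := LinearMap.det_toLin' (A.map j)
    exact h2
  rw [h1, ← RingHom.mapMatrix_apply, ← RingHom.map_det]

/-- the complex form of the bilinear form -/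
noncomputable def bl (J : Matrix (Fin n) (Fin n) K) : (Fin n → ℂ) →ₗ[ℂ] (Fin n → ℂ) →ₗ[ℂ] ℂ :=
  Matrix.toBilin' (J.map j)

theorem bl_apply (J : Matrix (Fin n) (Fin n) K) (x y : Fin n → ℂ) :
    bl j J x y = x ⬝ᵥ J.map j *ᵥ y := Matrix.toBilin'_apply' _ x y

theorem bl_nondeg {J : Matrix (Fin n) (Fin n) K} (hJ : J.det ≠ 0) (x : Fin n → ℂ)
    (h : ∀ y, bl j J x y = 0) : x = 0 := by
  have h1 : (J.map j).det ≠ 0 := by
    rw [← RingHom.mapMatrix_apply, ← RingHom.map_det]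
    exact (map_ne_zero _).2 hJ
  have h2 : (Matrix.toBilin' (J.map j)).Nondegenerate :=
    LinearMap.BilinForm.nondegenerate_toBilin'_of_det_ne_zero' _ h1
  exact h2.1 x h

theorem bl_cx {m k : ℕ} (J : Matrix (Fin n) (Fin n) K) (A : Matrix (Fin n) (Fin m) K)
    (B : Matrix (Fin n) (Fin k) K) (x : Fin m → ℂ) (y : Fin k → ℂ) :
    bl j J (cx j A x) (cx j B y) = x ⬝ᵥ (Aᵀ * J * B).map j *ᵥ y := by
  rw [bl_apply, cx_apply, cx_apply, Matrix.map_mul, Matrix.map_mul, Matrix.transpose_map,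
    ← mulVec_mulVec, ← mulVec_mulVec, Matrix.dotProduct_mulVec x, Matrix.vecMul_transpose]

end loc

variable {F : Type} [Field F] [NumberField F] {ℓ : ℕ} [hℓ : Fact ℓ.Prime] {n : ℕ}

theorem dt_unip (ρ : GF F →* GL (Fin n) ℚ_[ℓ]) (U : Submodule ℚ_[ℓ] (Fin n → ℚ_[ℓ]))
    (hU : ∀ g, U ≤ U.comap (act ρ g)) (g : GF F) (M : ℕ)
    (h : IsNilpotent (mat ρ g ^ M - 1)) : dt ρ U hU g ^ M = 1 := by
  obtain ⟨k, hk⟩ := h
  rw [← map_pow]
  apply Units.ext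
  rw [coe_dt, Units.val_one]
  apply det_unip
  refine ⟨k, ?_⟩
  apply LinearMap.ext
  intro x
  apply Subtype.ext
  have h1 : ∀ i : ℕ, ∀ x : U, ((((res ρ U hU (g ^ M) - 1 : Module.End ℚ_[ℓ] U) ^ i) x : U) :
      Fin n → ℚ_[ℓ]) = ((mat ρ g ^ M - 1) ^ i) *ᵥ (x : Fin n → ℚ_[ℓ]) := by
    intro i
    induction i with
    | zero =>
      intro x
      rw [pow_zero, pow_zero, one_mulVec]
      rfl
    | succ i ih =>
      intro x
      rw [pow_succ, Module.End.mul_apply, ih, pow_succ (mat ρ g ^ M - 1), ← mulVec_mulVec]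
      congr 1
      have h2 : (((res ρ U hU (g ^ M) - 1 : Module.End ℚ_[ℓ] U) x : U) : Fin n → ℚ_[ℓ]) =
          ((ρ (g ^ M) : GL (Fin n) ℚ_[ℓ]) : Matrix (Fin n) (Fin n) ℚ_[ℓ]) *ᵥ
            (x : Fin n → ℚ_[ℓ]) - x := rfl
      rw [h2, map_pow, Units.val_pow_eq_pow_val, sub_mulVec, one_mulVec]
      rfl
  rw [h1, hk, zero_mulVec]
  rfl

theorem one_lt_norm (v : HeightOneSpectrum (𝓞 F)) : 1 < Ideal.absNorm v.asIdeal := by
  have h1 : Ideal.absNorm v.asIdeal ≠ 0 := by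
    rw [Ne, Ideal.absNorm_eq_zero_iff]
    exact v.ne_bot
  have h2 : Ideal.absNorm v.asIdeal ≠ 1 := by
    rw [Ne, Ideal.absNorm_eq_one_iff]
    exact v.isPrime.ne_top
  omega

section place

variable {ρ : GF F →* GL (Fin n) ℚ_[ℓ]} {v : HeightOneSpectrum (𝓞 F)} {Q : Ideal (OO F)}
  {N : Matrix (Fin n) (Fin n) ℚ_[ℓ]} {σ : GF F} {w : ℤ}

theorem loc_inst (j : ℚ_[ℓ] →+* ℂ) (hN : Monodromy ρ v Q N) (hI : IntegralWeights ρ j v Q)
    (hσ : FrobAt (Ideal.absNorm v.asIdeal) Q σ) :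
    Loc (cx j (mat ρ σ⁻¹)) (cx j N) (Ideal.absNorm v.asIdeal) := by
  refine ⟨one_lt_norm v, fun x => ?_, fun μ x hx hfx => ?_⟩
  · rw [← cx_mul, hN.frobenius σ hσ, ← cx_mul, cx_apply, cx_apply]
    have h1 : ((q v : ℚ_[ℓ]) • (mat ρ σ⁻¹ * N)).map j =
        ((Ideal.absNorm v.asIdeal : ℕ) : ℂ) • (mat ρ σ⁻¹ * N).map j := by
      ext a b
      simp only [Matrix.map_apply, Matrix.smul_apply, smul_eq_mul, map_mul, map_natCast]
    rw [h1, smul_mulVec]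
  · refine hI σ hσ μ ?_
    have h1 : Module.End.HasEigenvalue (cx j (mat ρ σ⁻¹) : Module.End ℂ (Fin n → ℂ)) μ :=
      Module.End.hasEigenvalue_of_hasEigenvector ⟨Module.End.mem_eigenspace_iff.2 hfx, hx⟩
    rw [Module.End.hasEigenvalue_iff_isRoot_charpoly] at h1
    have h2 : (cx j (mat ρ σ⁻¹) : Module.End ℂ (Fin n → ℂ)).charpoly =
        ((mat ρ σ⁻¹).map j).charpoly := Matrix.charpoly_mulVecLin _
    rw [h2] at h1
    exact (Polynomial.mem_roots (Matrix.charpoly_monic _).ne_zero).2 h1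

theorem mw_inst (j : ℚ_[ℓ] →+* ℂ) (hMW : MonodromyWeight ρ j w v Q N)
    (hσ : FrobAt (Ideal.absNorm v.asIdeal) Q σ) :
    MW (cx j (mat ρ σ⁻¹)) (cx j N) (Ideal.absNorm v.asIdeal) w := by
  intro i hi μ hμ x hx hfx
  rw [cx_pow]
  exact hMW σ hσ i hi μ hμ x hx hfx

theorem form_frob (hℓQ : (ℓ : OO F) ∉ Q) (hQ : Q.IsPrime) (j : ℚ_[ℓ] →+* ℂ)
    {J : Matrix (Fin n) (Fin n) ℚ_[ℓ]}
    (hpol : ∀ g, (mat ρ g)ᵀ * J * mat ρ g =
        (((chi F ℓ g : ℤ_[ℓ]ˣ) : ℤ_[ℓ]) : ℚ_[ℓ]) ^ (-w) • J)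
    (hσ : FrobAt (Ideal.absNorm v.asIdeal) Q σ) (x y : Fin n → ℂ) :
    bl j J (cx j (mat ρ σ⁻¹) x) (cx j (mat ρ σ⁻¹) y) =
      ((Ideal.absNorm v.asIdeal : ℕ) : ℂ) ^ w * bl j J x y := by
  rw [bl_cx, hpol, bl_apply]
  have hχ := chi_frob hQ hℓQ hσ
  have h1 : (((chi F ℓ σ⁻¹ : ℤ_[ℓ]ˣ) : ℤ_[ℓ]) : ℚ_[ℓ]) *
      ((Ideal.absNorm v.asIdeal : ℕ) : ℚ_[ℓ]) = 1 := by
    have h2 : ((chi F ℓ σ⁻¹ : ℤ_[ℓ]ˣ) : ℤ_[ℓ]) * ((chi F ℓ σ : ℤ_[ℓ]ˣ) : ℤ_[ℓ]) =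
        1 := by
      rw [← Units.val_mul, ← map_mul, inv_mul_cancel, map_one, Units.val_one]
    rw [hχ] at h2
    have h3 := congrArg (fun z : ℤ_[ℓ] => (z : ℚ_[ℓ])) h2
    simpa using h3
  rw [eq_inv_of_mul_eq_one_left h1, _root_.inv_zpow', neg_neg]
  have h4 : ((((Ideal.absNorm v.asIdeal : ℕ) : ℚ_[ℓ]) ^ w) • J).map j =
      (((Ideal.absNorm v.asIdeal : ℕ) : ℂ) ^ w) • J.map j := by
    ext a b
    simp only [Matrix.map_apply, Matrix.smul_apply, smul_eq_mul, map_mul, map_zpow₀, map_natCast]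
  rw [h4, smul_mulVec, dotProduct_smul, smul_eq_mul]

theorem form_mon (hℓQ : (ℓ : OO F) ∉ Q) (hQ : Q.IsPrime) (j : ℚ_[ℓ] →+* ℂ)
    {J : Matrix (Fin n) (Fin n) ℚ_[ℓ]}
    (hpol : ∀ g, (mat ρ g)ᵀ * J * mat ρ g =
        (((chi F ℓ g : ℤ_[ℓ]ˣ) : ℤ_[ℓ]) : ℚ_[ℓ]) ^ (-w) • J)
    (hN : Monodromy ρ v Q N) (x y : Fin n → ℂ) :
    bl j J (cx j N x) y + bl j J x (cx j N y) = 0 := by
  obtain ⟨M, hM, -, g, hg, hgM⟩ := hN.inertia
  have hχ : ((chi F ℓ g : ℤ_[ℓ]ˣ) : ℤ_[ℓ]) = (1 : ℕ) := by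
    refine chi_frob (q := 1) hQ hℓQ (fun x => ?_)
    rw [pow_one]
    exact hg x
  have h1 : (mat ρ g)ᵀ * J * mat ρ g = J := by
    rw [hpol, hχ, Nat.cast_one, PadicInt.coe_one, _root_.one_zpow, one_smul]
  have h2 : ∀ k : ℕ, (mat ρ g ^ k)ᵀ * J * mat ρ g ^ k = J := by
    intro k
    induction k with
    | zero => rw [pow_zero, transpose_one, Matrix.one_mul, Matrix.mul_one]
    | succ k ih =>
      have h3 : (mat ρ g ^ (k + 1))ᵀ * J * mat ρ g ^ (k + 1) =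
          (mat ρ g)ᵀ * ((mat ρ g ^ k)ᵀ * J * mat ρ g ^ k) * mat ρ g := by
        rw [pow_succ, transpose_mul]
        simp only [Matrix.mul_assoc]
      rw [h3, ih, h1]
  have h3 := h2 M
  rw [hgM] at h3
  have h4 := skew_log hN.nilpotent h3
  have h5 : bl j J (cx j N x) y = x ⬝ᵥ (Nᵀ * J).map j *ᵥ y := by
    have h6 := bl_cx j J N 1 x y
    rw [Matrix.mul_one] at h6
    rw [← h6]
    congr 1
    rw [cx_apply, Matrix.map_one _ (map_zero _) (map_one _), one_mulVec]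
  have h6 : bl j J x (cx j N y) = x ⬝ᵥ (J * N).map j *ᵥ y := by
    have h7 := bl_cx j J 1 N x y
    rw [transpose_one, Matrix.one_mul] at h7
    rw [← h7]
    congr 2
    rw [cx_apply, Matrix.map_one _ (map_zero _) (map_one _), one_mulVec]
  rw [h5, h6, ← dotProduct_add, ← add_mulVec, ← Matrix.map_add _ (map_add j), h4,
    Matrix.map_zero _ (map_zero j), zero_mulVec, dotProduct_zero]

theorem stable_mon {U : Submodule ℚ_[ℓ] (Fin n → ℚ_[ℓ])} (hU : ∀ g, U ≤ U.comap (act ρ g))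
    (hN : Monodromy ρ v Q N) : ∀ x ∈ U, N *ᵥ x ∈ U := by
  obtain ⟨M, hM, -, g, hg, hgM⟩ := hN.inertia
  apply stable_log hN.nilpotent
  rw [← hgM]
  have h1 : ∀ k : ℕ, ∀ x ∈ U, (mat ρ g ^ k) *ᵥ x ∈ U := by
    intro k
    induction k with
    | zero =>
      intro x hx
      rwa [pow_zero, one_mulVec]
    | succ k ih =>
      intro x hx
      rw [pow_succ, ← mulVec_mulVec]
      exact ih _ (hU g hx)
  exact h1 M

end place

section main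

/-- the data of the theorem -/
structure Data (ρ : GF F →* GL (Fin n) ℚ_[ℓ]) (w : ℤ) (m : Fin n → ℤ) (j : ℚ_[ℓ] →+* ℂ)
    (J : Matrix (Fin n) (Fin n) ℚ_[ℓ]) (p₀ p : ℕ) (P : HeightOneSpectrum (𝓞 F) → Polynomial ℚ)
    (N : Ideal (OO F) → Matrix (Fin n) (Fin n) ℚ_[ℓ]) : Prop where
  cont : Continuous ρ
  ht : HodgeTate ρ m
  hJ : J.det ≠ 0
  sym : Jᵀ = J ∨ Jᵀ = -J
  pol : ∀ g, (mat ρ g)ᵀ * J * mat ρ g =
    (((chi F ℓ g : ℤ_[ℓ]ˣ) : ℤ_[ℓ]) : ℚ_[ℓ]) ^ (-w) • J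
  hp₀ : p₀.Prime ∧ p₀ ≠ ℓ ∧ Unram F p₀
  good : ∀ v, Above v p₀ → GoodAt ρ w v (P v)
  hp : p.Prime ∧ p ≠ ℓ ∧ Unram F p
  mon : ∀ v, Above v p → ∀ Q, PrimeOver Q v → Monodromy ρ v Q (N Q) ∧ IntegralWeights ρ j v Q ∧
    (MonodromyWeight ρ j w v Q (N Q) ∨ ∀ i, 1 ≤ i → blocks (N Q) i ≤ 1)

variable {ρ : GF F →* GL (Fin n) ℚ_[ℓ]} {w : ℤ} {m : Fin n → ℤ} {j : ℚ_[ℓ] →+* ℂ}
  {J : Matrix (Fin n) (Fin n) ℚ_[ℓ]} {p₀ p : ℕ} {P : HeightOneSpectrum (𝓞 F) → Polynomial ℚ}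
  {N : Ideal (OO F) → Matrix (Fin n) (Fin n) ℚ_[ℓ]}

theorem Data.notMem (D : Data ρ w m j J p₀ p P N) {v : HeightOneSpectrum (𝓞 F)}
    (hv : Above v p) {Q : Ideal (OO F)} (hQ : PrimeOver Q v) : (ℓ : OO F) ∉ Q := by
  have hpQ : (p : OO F) ∈ Q := by
    rw [← natCast_mem_cm]
    have h1 : cm Q = v.asIdeal := hQ.2
    rw [h1]
    exact hv
  exact not_mem_of_ne D.hp.1 D.hp.2.1 hQ.1.ne_top hpQ

theorem Data.mw (D : Data ρ w m j J p₀ p P N) {v : HeightOneSpectrum (𝓞 F)}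
    (hv : Above v p) {Q : Ideal (OO F)} (hQ : PrimeOver Q v) {σ : GF F}
    (hσ : FrobAt (Ideal.absNorm v.asIdeal) Q σ) :
    MW (cx j (mat ρ σ⁻¹)) (cx j (N Q)) (Ideal.absNorm v.asIdeal) w := by
  obtain ⟨h1, h2, h3⟩ := D.mon v hv Q hQ
  rcases h3 with h3 | h3
  · exact mw_inst j h3 hσ
  · exact mw_of_block (loc_inst j h1 h2 hσ) (bl j J)
      (form_frob (D.notMem hv hQ) hQ.1 j D.pol hσ) (form_mon (D.notMem hv hQ) hQ.1 j D.pol h1)
      (bl_nondeg j D.hJ) (blk_cx j _ h3)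

/-- **The weights of the Frobenius elements on a stable subspace are symmetric** at all places
above `p`. -/
theorem Data.symm (D : Data ρ w m j J p₀ p P N) (U : Submodule ℚ_[ℓ] (Fin n → ℚ_[ℓ]))
    (hU : ∀ g, U ≤ U.comap (act ρ g)) {v : HeightOneSpectrum (𝓞 F)}
    (hv : Above v p) {Q : Ideal (OO F)} (hQ : PrimeOver Q v) :
    ∃ (σ : GF F) (r C : Matrix (Fin (finrank ℚ_[ℓ] U)) (Fin (finrank ℚ_[ℓ] U)) ℚ_[ℓ]),
      FrobAt (Ideal.absNorm v.asIdeal) Q σ ∧ mat ρ σ⁻¹ * bm U = bm U * r ∧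
      N Q * bm U = bm U * C ∧
      ∀ m : ℕ, (∀ μ ∈ (cx j r : Module.End ℂ (Fin (finrank ℚ_[ℓ] U) → ℂ)).charpoly.roots,
        ∀ u : ℤ, ‖μ‖ ^ 2 = (Ideal.absNorm v.asIdeal : ℝ) ^ u → w - m ≤ u ∧ u ≤ w + m) →
        ∀ i : ℤ, a (cx j r) (Ideal.absNorm v.asIdeal) w m i =
          a (cx j r) (Ideal.absNorm v.asIdeal) w m (-i) := by
  classical
  -- primes and Frobenius elements at all places
  have h0 : ∀ v' : HeightOneSpectrum (𝓞 F), ∃ (Q' : Ideal (OO F)) (σ : GF F), Q'.IsPrime ∧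
      cm Q' = v'.asIdeal ∧ FrobAt (Ideal.absNorm v'.asIdeal) Q' σ ∧ (v' = v → Q' = Q) := by
    intro v'
    by_cases h : v' = v
    · subst h
      obtain ⟨σ, hσ⟩ := exists_frobAt hQ.1 hQ.2
      exact ⟨Q, σ, hQ.1, hQ.2, hσ, fun _ => rfl⟩
    · obtain ⟨Q', σ, h1, h2, h3⟩ := frob_cm v'
      exact ⟨Q', σ, h1.isPrime, h2, h3, fun h' => absurd h' h⟩
  choose Q₀ σ₀ hQ₀ hQ₀v hσ₀ hQQ using h0
  obtain ⟨L, hL⟩ := bm_left (K := ℚ_[ℓ]) U
  set r : HeightOneSpectrum (𝓞 F) →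
      Matrix (Fin (finrank ℚ_[ℓ] U)) (Fin (finrank ℚ_[ℓ] U)) ℚ_[ℓ] := fun v =>
    LinearMap.toMatrix (finBasis ℚ_[ℓ] U) (finBasis ℚ_[ℓ] U) (res ρ U hU (σ₀ v)⁻¹) with hr
  have hrel : ∀ v, mat ρ (σ₀ v)⁻¹ * bm U = bm U * r v := fun v => bm_rel ρ U hU (σ₀ v)⁻¹
  have hC : ∀ v : HeightOneSpectrum (𝓞 F), ∃ C : Matrix (Fin (finrank ℚ_[ℓ] U))
      (Fin (finrank ℚ_[ℓ] U)) ℚ_[ℓ], Above v p → N (Q₀ v) * bm U = bm U * C := by
    intro v
    by_cases hv : Above v p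
    · obtain ⟨C, hC⟩ := exists_rep U (N (Q₀ v))
        (stable_mon hU (D.mon v hv (Q₀ v) ⟨hQ₀ v, hQ₀v v⟩).1)
      exact ⟨C, fun _ => hC⟩
    · exact ⟨0, fun h => absurd h hv⟩
  choose C hC using hC
  have hinj : Function.Injective (cx j (bm U)) := cx_injective j _ L hL
  have hf : ∀ v x, cx j (bm U) (cx j (r v) x) = cx j (mat ρ (σ₀ v)⁻¹) (cx j (bm U) x) := by
    intro v x
    rw [← cx_mul, ← hrel, cx_mul]
  have hNC : ∀ v, Above v p → ∀ x, cx j (bm U) (cx j (C v) x) =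
      cx j (N (Q₀ v)) (cx j (bm U) x) := by
    intro v hv x
    rw [← cx_mul, ← hC v hv, cx_mul]
  have hloc : ∀ v, Above v p → Loc (cx j (r v)) (cx j (C v)) (Ideal.absNorm v.asIdeal) := by
    intro v hv
    obtain ⟨h1, h2, -⟩ := D.mon v hv (Q₀ v) ⟨hQ₀ v, hQ₀v v⟩
    exact (loc_inst j h1 h2 (hσ₀ v)).sub _ hinj (hf v) (hNC v hv)
  have hmw : ∀ v, Above v p → MW (cx j (r v)) (cx j (C v)) (Ideal.absNorm v.asIdeal) w := by
    intro v hv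
    exact (D.mw hv ⟨hQ₀ v, hQ₀v v⟩ (hσ₀ v)).sub _ hinj (hf v) (hNC v hv)
  have hdet : ∀ v, ∃ c : ℤ, Above v p → c ≤ 0 ∧
      ‖LinearMap.det (cx j (r v))‖ ^ 2 = (Ideal.absNorm v.asIdeal : ℝ) ^
        (w * finrank ℂ (Fin (finrank ℚ_[ℓ] U) → ℂ) + c) ∧
      (c = 0 → ∀ m : ℕ, (∀ μ ∈ (cx j (r v) :
          Module.End ℂ (Fin (finrank ℚ_[ℓ] U) → ℂ)).charpoly.roots,
        ∀ u : ℤ, ‖μ‖ ^ 2 = (Ideal.absNorm v.asIdeal : ℝ) ^ u → w - m ≤ u ∧ u ≤ w + m) →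
        ∀ i : ℤ, a (cx j (r v)) (Ideal.absNorm v.asIdeal) w m i =
          a (cx j (r v)) (Ideal.absNorm v.asIdeal) w m (-i)) := by
    intro v
    by_cases hv : Above v p
    · obtain ⟨c, h1, h2, h3⟩ := det_weight (hloc v hv) (hmw v hv)
      exact ⟨c, fun _ => ⟨h1, h2, h3⟩⟩
    · exact ⟨0, fun h => absurd h hv⟩
  choose c hc using hdet
  have hzero := det_balance ρ D.cont w m D.ht D.hp₀ P D.good D.hp j Q₀ σ₀ hQ₀ hQ₀v hσ₀ U hU (by
    intro v hv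
    obtain ⟨M, hM, h1, -⟩ := (D.mon v hv (Q₀ v) ⟨hQ₀ v, hQ₀v v⟩).1.inertia
    refine ⟨M, hM, fun g hg => ?_⟩
    obtain ⟨t, ht⟩ := h1 g hg
    apply dt_unip
    rw [ht]
    exact expo_unip (smul_nil (D.mon v hv (Q₀ v) ⟨hQ₀ v, hQ₀v v⟩).1.nilpotent t)) c (by
    intro v hv
    obtain ⟨h1, h2, -⟩ := hc v hv
    refine ⟨h1, ?_⟩
    rw [finrank_fin_fun] at h2
    rw [← h2, det_cx, coe_dt, hr, LinearMap.det_toMatrix])
  refine ⟨σ₀ v, r v, C v, ?_, hrel v, ?_, (hc v hv).2.2 (hzero v hv)⟩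
  · have h1 := hσ₀ v
    rwa [hQQ v rfl] at h1
  · have h1 := hC v hv
    rwa [hQQ v rfl] at h1

/-- **Jordan blocks of stable subspaces.** -/
theorem Data.total (D : Data ρ w m j J p₀ p P N) (U : Submodule ℚ_[ℓ] (Fin n → ℚ_[ℓ]))
    (hU : ∀ g, U ≤ U.comap (act ρ g)) {v : HeightOneSpectrum (𝓞 F)}
    (hv : Above v p) {Q : Ideal (OO F)} (hQ : PrimeOver Q v) :
    TotalSize (N Q) 1 (finrank ℚ_[ℓ] U) ∧
      ((∀ x ∈ U, ∀ y ∈ U, x ⬝ᵥ J *ᵥ y = 0) → TotalSize (N Q) 2 (finrank ℚ_[ℓ] U)) := by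
  classical
  obtain ⟨σ, r, C, hσ, hr, hC, hsym⟩ := D.symm U hU hv hQ
  obtain ⟨L, hL⟩ := bm_left (K := ℚ_[ℓ]) U
  obtain ⟨h1, h2, -⟩ := D.mon v hv Q hQ
  obtain ⟨s, hs, hsum, hiso⟩ := sub_blocks (n := n) (loc_inst j h1 h2 hσ) (D.mw hv hQ hσ) (by
      rw [cx_pow, h1.nilpotent]
      apply LinearMap.ext
      intro x
      rw [cx_apply, Matrix.map_zero _ (map_zero j), zero_mulVec]
      rfl) (cx j (bm U)) (cx_injective j _ L hL)
    (f' := cx j r) (N' := cx j C) (by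
      intro x
      rw [← cx_mul, ← hr, cx_mul]) (by
      intro x
      rw [← cx_mul, ← hC, cx_mul]) hsym
  rw [finrank_fin_fun] at hsum
  refine ⟨⟨s, fun i hi => ?_, hsum⟩, fun hU0 => ⟨s, fun i hi => ?_, hsum⟩⟩
  · have h3 := hs i hi
    rw [cx_pow, cx_pow, cx_pow] at h3
    have h4 := finrank_ker_cx j (N Q ^ i)
    have h5 := finrank_ker_cx j (N Q ^ (i - 1))
    have h6 := finrank_ker_cx j (N Q ^ (i + 1))
    unfold blocks
    omega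
  · have h3 := hiso (bl j J) (form_frob (D.notMem hv hQ) hQ.1 j D.pol hσ)
      (form_mon (D.notMem hv hQ) hQ.1 j D.pol h1) (bl_nondeg j D.hJ) (by
        intro x y
        rw [bl_cx, bm_iso U J hU0, Matrix.map_zero _ (map_zero j), zero_mulVec,
          dotProduct_zero]) i hi
    rw [cx_pow, cx_pow, cx_pow] at h3
    have h4 := finrank_ker_cx j (N Q ^ i)
    have h5 := finrank_ker_cx j (N Q ^ (i - 1))
    have h6 := finrank_ker_cx j (N Q ^ (i + 1))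
    unfold blocks
    omega

/-- **Irreducibility.** -/
theorem Data.irreducible (D : Data ρ w m j J p₀ p P N)
    (h : ∃ v, Above v p ∧ ∃ Q, PrimeOver Q v ∧ n ≤ (N Q).rank + 1)
    (W : Submodule ℚ_[ℓ] (Fin n → ℚ_[ℓ])) (hW : Stable ρ W) : W = ⊥ ∨ W = ⊤ := by
  classical
  obtain ⟨v, hv, Q, hQ, hrk⟩ := h
  by_cases h0 : W = ⊥
  · exact Or.inl h0
  right
  have hU : ∀ g, W ≤ W.comap (act ρ g) := fun g x hx => hW g x hx
  obtain ⟨σ, r, C, hσ, hr, hC, hsym⟩ := D.symm W hU hv hQ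
  obtain ⟨L, hL⟩ := bm_left (K := ℚ_[ℓ]) W
  obtain ⟨h1, h2, -⟩ := D.mon v hv Q hQ
  have h3 := all_of_single (loc_inst j h1 h2 hσ) (D.mw hv hQ hσ) ⟨n, by
      rw [cx_pow, h1.nilpotent]
      apply LinearMap.ext
      intro x
      rw [cx_apply, Matrix.map_zero _ (map_zero j), zero_mulVec]
      rfl⟩ (by
      have := finrank_ker_cx j (N Q)
      omega) (cx j (bm W)) (cx_injective j _ L hL)
    (f' := cx j r) (N' := cx j C) (by
      intro x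
      rw [← cx_mul, ← hr, cx_mul]) (by
      intro x
      rw [← cx_mul, ← hC, cx_mul]) hsym (by
      have h4 : 0 < finrank ℚ_[ℓ] W := by
        rw [Nat.pos_iff_ne_zero]
        intro h
        exact h0 (Submodule.finrank_eq_zero.1 h)
      have : Nonempty (Fin (finrank ℚ_[ℓ] W)) := ⟨⟨0, h4⟩⟩
      infer_instance)
  rw [finrank_fin_fun, finrank_fin_fun] at h3
  apply Submodule.eq_top_of_finrank_eq
  have h4 := Submodule.finrank_le W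
  rw [finrank_fin_fun] at h4 ⊢
  omega

/-- A total size of at most half of distinct blocks is zero. -/
theorem total_zero {A : Matrix (Fin n) (Fin n) ℚ_[ℓ]} (h : ∀ i, 1 ≤ i → blocks A i ≤ 1) {k : ℕ}
    (hk : TotalSize A 2 k) : k = 0 := by
  obtain ⟨s, hs, rfl⟩ := hk
  apply Finset.sum_eq_zero
  intro i _
  rcases Nat.eq_zero_or_pos i with rfl | hi
  · rw [zero_mul]
  · have h1 := hs i hi
    have h2 := h i hi
    have h3 : s i = 0 := by omega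
    rw [h3, mul_zero]

end main

/-- **Semisimplicity and irreducibility from monodromy operators.** -/
theorem main (ρ : GF F →* GL (Fin n) ℚ_[ℓ]) (hρ : Continuous ρ) (w : ℤ) (hpol : Polarized ρ w)
    (m : Fin n → ℤ) (hHT : HodgeTate ρ m) {p₀ : ℕ}
    (hp₀ : p₀.Prime ∧ p₀ ≠ ℓ ∧ UnramifiedIn F p₀)
    (P : HeightOneSpectrum (𝓞 F) → Polynomial ℚ) (hP : ∀ v, Above v p₀ → GoodAt ρ w v (P v))
    (j : ℚ_[ℓ] →+* ℂ) (T : Set ℕ) (hT : ∀ p ∈ T, p.Prime ∧ p ≠ ℓ ∧ UnramifiedIn F p)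
    (N : Ideal (OO F) → Matrix (Fin n) (Fin n) ℚ_[ℓ])
    (hN : ∀ p ∈ T, ∀ v, Above v p → ∀ Q, PrimeOver Q v →
      Monodromy ρ v Q (N Q) ∧ IntegralWeights ρ j v Q ∧
        (MonodromyWeight ρ j w v Q (N Q) ∨ ∀ i, 1 ≤ i → blocks (N Q) i ≤ 1)) :
    (∀ W, Stable ρ W → ∀ p ∈ T, ∀ v, Above v p → ∀ Q, PrimeOver Q v →
      TotalSize (N Q) 1 (finrank ℚ_[ℓ] W)) ∧
    ((∀ k, 0 < k → 2 * k ≤ n → ∃ p ∈ T, ∃ v, Above v p ∧ ∃ Q, PrimeOver Q v ∧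
      ¬ TotalSize (N Q) 2 k) → Semisimple ρ) ∧
    ((∃ p ∈ T, ∃ v, Above v p ∧ ∃ Q, PrimeOver Q v ∧ ∀ i, 1 ≤ i → blocks (N Q) i ≤ 1) →
      Semisimple ρ) ∧
    ((∃ p ∈ T, ∃ v, Above v p ∧ ∃ Q, PrimeOver Q v ∧ n ≤ (N Q).rank + 1) →
      ∀ W, Stable ρ W → W = ⊥ ∨ W = ⊤) := by
  obtain ⟨J, hJ, hsym, hJρ⟩ := hpol
  have hD : ∀ p ∈ T, Data ρ w m j J p₀ p P N := fun p hp =>
    ⟨hρ, hHT, hJ, hsym, hJρ, hp₀, hP, hT p hp, hN p hp⟩
  have hss : (∀ k, 0 < k → 2 * k ≤ n → ∃ p ∈ T, ∃ v, Above v p ∧ ∃ Q, PrimeOver Q v ∧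
      ¬ TotalSize (N Q) 2 k) → Semisimple ρ := by
    intro h W hW
    refine compl_of_no_iso ρ w J hJ hsym hJρ ?_ W hW
    intro b U hbapp hnd hmul hU hiso hk hkn
    obtain ⟨p, hp, v, hv, Q, hQ, hno⟩ := h _ hk hkn
    exact hno (((hD p hp).total U hU hv hQ).2 fun x hx y hy => by
      rw [← hbapp]; exact hiso x hx y hy)
  refine ⟨fun W hW p hp v hv Q hQ => ((hD p hp).total W (fun g x hx => hW g x hx) hv hQ).1,
    hss, ?_, ?_⟩
  · rintro ⟨p, hp, v, hv, Q, hQ, h⟩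
    refine hss fun k hk _ => ⟨p, hp, v, hv, Q, hQ, fun h1 => ?_⟩
    have := total_zero h h1
    omega
  · rintro ⟨p, hp, v, hv, Q, hQ, h⟩ W hW
    exact (hD p hp).irreducible ⟨v, hv, Q, hQ, h⟩ W hW

end Pool.Agent.V8H84.WM
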