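import Pool.Agent.V8H84.WM.Glob
import Pool.Agent.V8H84.WM.Block
import Pool.Agent.V8H84.WM.Lin

/-!
# The determinant of a stable subspace at the places of bad reduction
-/

set_option autoImplicit false
set_option linter.unusedSectionVars false

namespace Pool.Agent.V8H84.WM

open NumberField IsDedekindDomain Pool.Agent.W569.FM Pool.Agent.W571.FM Pool.Agent.Y115.R
open Pool.Agent.Y115.T Pool.Agent.Y115.Chi Pool.Agent.Y115.CQ Module Matrix
open Pool.Agent.W292.FM Pool.Agent.V8H84.HT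

/-- the transfer of a power -/
theorem transfer_pow {G : Type*} [Group G] {H : Subgroup G} [H.FiniteIndex] {A : Type*}
    [CommGroup A] (φ : H →* A) (M : ℕ) (g : G) :
    MonoidHom.transfer ((powMonoidHom M).comp φ) g = MonoidHom.transfer φ g ^ M := by
  rw [MonoidHom.transfer_def _ default, MonoidHom.transfer_def _ default]
  unfold Subgroup.leftTransversals.diff
  simp only [MonoidHom.comp_apply, powMonoidHom_apply]
  exact Finset.prod_pow _ _ _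

theorem prod_zpow_sum {ι : Type*} (S : Finset ι) {x : ℝ} (hx : x ≠ 0) (g : ι → ℤ) :
    ∏ v ∈ S, x ^ g v = x ^ ∑ v ∈ S, g v := by
  classical
  induction S using Finset.induction_on with
  | empty => simp
  | insert a s ha ih => rw [Finset.prod_insert ha, Finset.sum_insert ha, ih, zpow_add₀ hx]

variable {F : Type} [Field F] [NumberField F] {ℓ : ℕ} [hℓ : Fact ℓ.Prime] {n : ℕ}

/-- Frobenius elements exist at every prime -/
theorem exists_frobAt {v : HeightOneSpectrum (𝓞 F)} {Q : Ideal (OO F)} (hQ : Q.IsPrime)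
    (hQv : cm Q = v.asIdeal) : ∃ σ : GF F, FrobAt (Ideal.absNorm v.asIdeal) Q σ := by
  obtain ⟨P, σ, hP, hPv, hσ⟩ := frob_cm v
  obtain ⟨h, hh⟩ := exists_smul P Q hP.isPrime hQ (hPv.trans hQv.symm)
  refine ⟨h * σ * h⁻¹, fun x => ?_⟩
  rw [hh, smul_sub, smul_pow', smul_smul]
  have h1 : h⁻¹ * (h * σ * h⁻¹) = σ * h⁻¹ := by group
  rw [h1, ← smul_smul]
  exact hσ (h⁻¹ • x)

/-- **The determinant of a stable subspace at the places above `p`.** -/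
theorem det_balance (ρ : GF F →* GL (Fin n) ℚ_[ℓ]) (hρ : Continuous ρ) (w : ℤ)
    (m : Fin n → ℤ) (hHT : HodgeTate ρ m)
    {p₀ : ℕ} (hp₀ : p₀.Prime ∧ p₀ ≠ ℓ ∧ Unram F p₀)
    (P : HeightOneSpectrum (𝓞 F) → Polynomial ℚ) (hP : ∀ v, Above v p₀ → GoodAt ρ w v (P v))
    {p : ℕ} (hp : p.Prime ∧ p ≠ ℓ ∧ Unram F p) (j : ℚ_[ℓ] →+* ℂ)
    (Q₀ : HeightOneSpectrum (𝓞 F) → Ideal (OO F)) (σ₀ : HeightOneSpectrum (𝓞 F) → GF F)
    (hQ₀ : ∀ v, (Q₀ v).IsPrime) (hQ₀v : ∀ v, cm (Q₀ v) = v.asIdeal)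
    (hσ₀ : ∀ v, FrobAt (Ideal.absNorm v.asIdeal) (Q₀ v) (σ₀ v))
    (U : Submodule ℚ_[ℓ] (Fin n → ℚ_[ℓ])) (hU : ∀ g, U ≤ U.comap (act ρ g))
    (hI : ∀ v : HeightOneSpectrum (𝓞 F), (p : 𝓞 F) ∈ v.asIdeal →
      ∃ M, 0 < M ∧ ∀ g, InInertia (Q₀ v) g → dt ρ U hU g ^ M = 1)
    (c : HeightOneSpectrum (𝓞 F) → ℤ)
    (hc : ∀ v : HeightOneSpectrum (𝓞 F), (p : 𝓞 F) ∈ v.asIdeal → c v ≤ 0 ∧
      ‖j ((dt ρ U hU (σ₀ v)⁻¹ : ℚ_[ℓ]ˣ) : ℚ_[ℓ])‖ ^ 2 =
        (Ideal.absNorm v.asIdeal : ℝ) ^ (w * finrank ℚ_[ℓ] U + c v)) :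
    ∀ v : HeightOneSpectrum (𝓞 F), (p : 𝓞 F) ∈ v.asIdeal → c v = 0 := by
  classical
  obtain ⟨S₀, N, hN, hkey⟩ := det_char_weak ρ hρ m hHT U hU
  set ψ : GF F →* ℚ_[ℓ]ˣ := dt ρ U hU with hψ
  -- the weight of the determinant at the place of good reduction
  have hw : w * finrank ℚ_[ℓ] U * finrank ℚ F = 2 * S₀ := by
    obtain ⟨A, hA, hrel⟩ := Pool.Agent.V8H84.HTP.exists_A' (F := F) (E := ℚ) ℓ ρ hρ w
      (algebraMap ℚ ℚ_[ℓ]) (algebraMap ℚ ℂ) {p₀} (by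
        intro p hp
        rw [Set.mem_singleton_iff] at hp
        subst hp
        exact hp₀) P (by
        intro p hp v hv Q hQ hQv
        rw [Set.mem_singleton_iff] at hp
        subst hp
        exact ⟨(hP v hv).unramified Q ⟨hQ, hQv⟩, (hP v hv).frobenius Q ⟨hQ, hQv⟩⟩) (by
        intro p hp v hv
        rw [Set.mem_singleton_iff] at hp
        subst hp
        exact (hP v hv).pure) U hU N (-(S₀ * N)) hN hkey
    have h1 := (hrel p₀ rfl).1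
    have hN0 : (N : ℤ) ≠ 0 := Int.natCast_ne_zero.2 hN.ne'
    apply mul_left_cancel₀ hN0
    linear_combination h1
  -- the places above `p`
  obtain ⟨S, -, -, hS, -, f, hf, hfsum⟩ := Pool.Agent.V8H84.HTP.place_relation' (ℓ := ℓ) (E := ℚ_[ℓ])
    (1 : GF F →* ℚ_[ℓ]ˣ) {p} (by
      intro p' hp'
      rw [Set.mem_singleton_iff] at hp'
      subst hp'
      exact hp) (fun _ => 1) (fun _ _ _ _ _ _ _ => ⟨fun _ _ => rfl, fun _ _ => rfl⟩) 1 0 one_pos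
    (by
      intro g
      have h1 : (1 : GF F →* ℚ_[ℓ]ˣ).comp (cc F) = (powMonoidHom 0).comp
          ((1 : GF F →* ℚ_[ℓ]ˣ).comp (cc F)) := by
        apply MonoidHom.ext
        intro x
        simp
      rw [h1, transfer_pow, pow_zero, one_pow, zpow_zero]) p rfl
  have hI' : ∀ v : HeightOneSpectrum (𝓞 F), ∃ M, 0 < M ∧ ((p : 𝓞 F) ∈ v.asIdeal →
      ∀ g, InInertia (Q₀ v) g → ψ g ^ M = 1) := by
    intro v
    by_cases hv : (p : 𝓞 F) ∈ v.asIdeal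
    · obtain ⟨M, hM, h⟩ := hI v hv
      exact ⟨M, hM, fun _ => h⟩
    · exact ⟨1, one_pos, fun h => absurd h hv⟩
  choose Mv hMv hMv' using hI'
  set M := ∏ v ∈ S, Mv v with hM
  have hMpos : 0 < M := Finset.prod_pos fun v _ => hMv v
  set ψ' : GF F →* ℚ_[ℓ]ˣ := (powMonoidHom M).comp ψ with hψ'
  have hψ'g : ∀ g, ψ' g = ψ g ^ M := fun g => rfl
  have hin₀ : ∀ v : HeightOneSpectrum (𝓞 F), (p : 𝓞 F) ∈ v.asIdeal → ∀ g,
      InInertia (Q₀ v) g → ψ' g = 1 := by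
    intro v hv g hg
    obtain ⟨t, ht⟩ := Finset.dvd_prod_of_mem Mv ((hS v).2 hv)
    rw [hψ'g, hM, ht, pow_mul, hMv' v hv g hg, one_pow]
  have hd : ∀ v : HeightOneSpectrum (𝓞 F), (p : 𝓞 F) ∈ v.asIdeal → ∀ Q : Ideal (OO F),
      Q.IsPrime → cm Q = v.asIdeal → (∀ g, InInertia Q g → ψ' g = 1) ∧
        ∀ g, FrobAt (Ideal.absNorm v.asIdeal) Q g → ψ' g = ψ' (σ₀ v) := by
    intro v hv Q hQ hQv
    obtain ⟨h, hh⟩ := exists_smul (Q₀ v) Q (hQ₀ v) hQ ((hQ₀v v).trans hQv.symm)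
    refine ⟨fun g hg => ?_, fun g hg => ?_⟩
    · have h1 := hin₀ v hv _ (inertia_conj hh hg)
      rwa [map_mul, map_mul, map_inv, mul_comm (ψ' h)⁻¹, mul_assoc, inv_mul_cancel, mul_one] at h1
    · have hq0 : Ideal.absNorm v.asIdeal ≠ 0 := by
        rw [Ne, Ideal.absNorm_eq_zero_iff]
        exact v.ne_bot
      have h1 : FrobAt (Ideal.absNorm v.asIdeal) (Q₀ v) (h⁻¹ * g * h) := by
        intro x
        have h2 := (hh _).1 (hg (h • x))
        rw [smul_sub, smul_pow', inv_smul_smul, smul_smul, smul_smul] at h2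
        exact h2
      have h2 := hin₀ v hv _ (frob_inertia hq0 (hQ₀ v) (hσ₀ v) h1)
      rw [map_mul, map_mul, map_mul, map_inv, map_inv, mul_comm (ψ' h)⁻¹, mul_assoc (ψ' g),
        inv_mul_cancel, mul_one, inv_mul_eq_one] at h2
      exact h2.symm
  obtain ⟨S', M₁, hM₁, hS', heq, -⟩ := Pool.Agent.V8H84.HTP.place_relation' (ℓ := ℓ) (E := ℚ_[ℓ])
    ψ' {p} (by
      intro p' hp'
      rw [Set.mem_singleton_iff] at hp'
      subst hp'
      exact hp) (fun v => ψ' (σ₀ v)) (by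
      intro p' hp'
      rw [Set.mem_singleton_iff] at hp'
      subst hp'
      exact hd) N (-(S₀ * N * M)) hN (by
      intro g
      have h1 : ψ'.comp (cc F) = (powMonoidHom M).comp (ψ.comp (cc F)) := rfl
      rw [h1, transfer_pow, ← pow_mul, mul_comm M N, pow_mul, hkey, ← zpow_natCast,
        ← _root_.zpow_mul]
      congr 1
      ring) p rfl
  have hSS : S' = S := by
    ext v
    rw [hS', hS]
  subst hSS
  have hp0 : (p : ℝ) ≠ 0 := Nat.cast_ne_zero.2 hp.1.ne_zero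
  have hp1 : (1 : ℝ) < (p : ℝ) := by exact_mod_cast hp.1.one_lt
  -- the absolute values
  have hnorm : ∀ v ∈ S', ‖j ((ψ' (σ₀ v) : ℚ_[ℓ]ˣ) : ℚ_[ℓ])‖ ^ 2 =
      (p : ℝ) ^ (-(M * (f v * (w * finrank ℚ_[ℓ] U + c v))) : ℤ) := by
    intro v hv
    have h1 := (hc v ((hS v).1 hv)).2
    rw [map_inv, Units.val_inv_eq_inv_val, map_inv₀, norm_inv, inv_pow, inv_eq_iff_eq_inv,
      hf v hv] at h1
    rw [hψ'g, Units.val_pow_eq_pow_val, map_pow, norm_pow, ← pow_mul, mul_comm M 2, pow_mul, h1]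
    push_cast
    rw [← _root_.zpow_neg, ← zpow_natCast (p : ℝ), ← _root_.zpow_mul, ← zpow_natCast,
      ← _root_.zpow_mul]
    congr 1
    ring
  have h2 : ‖j (∏ v ∈ S', ((ψ' (σ₀ v) : ℚ_[ℓ]ˣ) : ℚ_[ℓ]))‖ ^ 2 =
      (p : ℝ) ^ (-(M * (w * finrank ℚ_[ℓ] U * finrank ℚ F + ∑ v ∈ S', f v * c v)) : ℤ) := by
    rw [map_prod, norm_prod, ← Finset.prod_pow, Finset.prod_congr rfl hnorm]
    rw [prod_zpow_sum S' hp0]
    congr 1
    rw [Finset.sum_neg_distrib, ← Finset.mul_sum]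
    congr 2
    have h3 : ∀ v ∈ S', (f v : ℤ) * (w * finrank ℚ_[ℓ] U + c v) =
        (f v : ℤ) * (w * finrank ℚ_[ℓ] U) + f v * c v := fun v _ => by ring
    rw [Finset.sum_congr rfl h3, Finset.sum_add_distrib, ← Finset.sum_mul, ← hfsum]
    push_cast
    ring
  have h3 : ‖j (∏ v ∈ S', ((ψ' (σ₀ v) : ℚ_[ℓ]ˣ) : ℚ_[ℓ]))‖ ^ (M₁ * N) =
      (p : ℝ) ^ (-(S₀ * N * M) * M₁ : ℤ) := by
    have h4 := congrArg (fun x => ‖j x‖) heq
    simp only [map_pow, norm_pow, map_zpow₀, map_natCast, norm_zpow, Complex.norm_natCast] at h4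
    exact h4
  have h4 : (p : ℝ) ^ (-(M * (w * finrank ℚ_[ℓ] U * finrank ℚ F + ∑ v ∈ S', f v * c v)) *
      (M₁ * N : ℕ) : ℤ) = (p : ℝ) ^ (-(S₀ * N * M) * M₁ * 2 : ℤ) := by
    rw [_root_.zpow_mul, ← h2, _root_.zpow_mul (p : ℝ) (-(S₀ * N * M) * M₁) 2, ← h3,
      zpow_natCast, ← pow_mul, mul_comm 2 (M₁ * N), pow_mul]
    norm_cast
  have h5 := zpow_right_injective₀ (by linarith) hp1.ne' h4
  have h6 : ∑ v ∈ S', (f v : ℤ) * c v = 0 := by
    have hne : ((M * M₁ * N : ℕ) : ℤ) ≠ 0 := by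
      have : 0 < M * M₁ * N := Nat.mul_pos (Nat.mul_pos hMpos hM₁) hN
      exact_mod_cast this.ne'
    apply mul_left_cancel₀ hne
    rw [hw] at h5
    push_cast at h5 ⊢
    linear_combination -h5
  intro v hv
  have hv' : v ∈ S' := (hS v).2 hv
  have h7 : ∀ v ∈ S', (f v : ℤ) * c v ≤ 0 := fun v hv =>
    mul_nonpos_of_nonneg_of_nonpos (Int.natCast_nonneg _) (hc v ((hS v).1 hv)).1
  have h8 := (Finset.sum_eq_zero_iff_of_nonpos h7).1 h6 v hv'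
  have hf0 : (f v : ℤ) ≠ 0 := by
    intro h0
    have h9 : f v = 0 := by exact_mod_cast h0
    have h10 := hf v hv'
    rw [h9, pow_zero, Ideal.absNorm_eq_one_iff] at h10
    exact v.isPrime.ne_top h10
  exact (mul_eq_zero.1 h8).resolve_left hf0

end Pool.Agent.V8H84.WM
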